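import Pool.Agent.helper30.Mu.Low

/-!
# The lower bound
-/

set_option autoImplicit false

namespace Pool.Agent.helper30.Mu

open Finset

theorem sum_inv_sq (m : ℕ) : ∑ i ∈ range m, 1 / ((i : ℝ) + 1) ^ 2 ≤ 33 / 20 := by
  have h := hasSum_zeta_two
  have h1 : ∑ i ∈ range m, 1 / ((i : ℝ) + 1) ^ 2 =
      ∑ i ∈ (range m).image (fun j : ℕ => j + 1), 1 / (i : ℝ) ^ 2 := by
    rw [sum_image (by intro a _ b _ hab; exact Nat.succ_injective hab)]
    exact sum_congr rfl fun i _ => by push_cast; rfl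
  rw [h1]
  refine (sum_le_hasSum _ (fun i _ => by positivity) h).trans ?_
  have h2 := Real.pi_lt_d4
  have h3 := Real.pi_pos
  nlinarith

/-- the numerical inequality, `w = √δ` -/
theorem num (δ : ℝ) (hδ : 0 < δ) (hδ1 : δ ≤ 1) :
    Real.sqrt δ * Real.log (5 / 2 + 16.7784 / (δ * (1 + δ))) ≤ 2.42 := by
  set w := Real.sqrt δ with hw
  have hw0 : 0 < w := Real.sqrt_pos.2 hδ
  have hw1 : w ≤ 1 := by rw [hw]; exact Real.sqrt_le_one.2 hδ1
  have hww : w ^ 2 = δ := Real.sq_sqrt hδ.le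
  set U := 5 / 2 * δ + 16.7784 / (1 + δ) with hU
  have hU0 : 0 < U := by rw [hU]; positivity
  have e1 : 5 / 2 + 16.7784 / (δ * (1 + δ)) = U / δ := by rw [hU]; field_simp
  have hl9 : Real.log (10 / 9) ≤ 0.1054 := by
    rw [Real.log_le_iff_le_exp (by norm_num)]
    have := Real.quadratic_le_exp_of_nonneg (by norm_num : (0 : ℝ) ≤ 0.1054)
    have h3 : (1 : ℝ) + 0.1054 + 0.1054 ^ 2 / 2 + 0.1054 ^ 3 / 6 ≤ Real.exp 0.1054 := by
      have h := Real.sum_le_exp_of_nonneg (by norm_num : (0 : ℝ) ≤ 0.1054) 4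
      simp only [Finset.sum_range_succ, Finset.sum_range_zero, Nat.factorial] at h
      norm_num at h ⊢
      linarith
    refine le_trans ?_ h3
    norm_num
  have hl11 : Real.log 11 ≤ 2.398 := by
    rw [Real.log_le_iff_le_exp (by norm_num)]
    have h := Real.sum_le_exp_of_nonneg (by norm_num : (0 : ℝ) ≤ 2.398) 13
    refine le_trans ?_ h
    simp only [Finset.sum_range_succ, Finset.sum_range_zero, Nat.factorial]
    norm_num
  -- `-log w`
  have h1 : -Real.log w ≤ 0.9 / w - 1 + 0.1054 := by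
    have h2 := Real.log_le_sub_one_of_pos (by positivity : 0 < 0.9 / w)
    rw [Real.log_div (by norm_num) hw0.ne'] at h2
    have h3 : Real.log (0.9 : ℝ) = -Real.log (10 / 9) := by
      rw [← Real.log_inv]; congr 1; norm_num
    rw [h3] at h2
    linarith
  have h4 : Real.log U ≤ U / 11 - 1 + 2.398 := by
    have h2 := Real.log_le_sub_one_of_pos (by positivity : 0 < U / 11)
    rw [Real.log_div hU0.ne' (by norm_num)] at h2
    linarith
  have h5 : Real.log (U / δ) = Real.log U - 2 * Real.log w := by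
    rw [Real.log_div hU0.ne' hδ.ne', ← hww, Real.log_pow]
    push_cast; ring
  rw [e1, h5]
  have h6 : w * (Real.log U - 2 * Real.log w) ≤
      w * (U / 11 - 1 + 2.398 + 2 * (0.9 / w - 1 + 0.1054)) := by
    apply mul_le_mul_of_nonneg_left _ hw0.le
    linarith
  refine h6.trans ?_
  have h7 : w * (U / 11 - 1 + 2.398 + 2 * (0.9 / w - 1 + 0.1054)) =
      1.8 + w * (U / 11) - 0.3912 * w := by
    field_simp
    ring
  rw [h7, hU, ← hww]
  have h8 : w * ((5 / 2 * w ^ 2 + 16.7784 / (1 + w ^ 2)) / 11) =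
      (5 / 22 * w ^ 3 * (1 + w ^ 2) + 16.7784 / 11 * w) / (1 + w ^ 2) := by
    field_simp
    ring
  rw [h8]
  have h9 : 0 < 1 + w ^ 2 := by positivity
  have h10 : (5 / 22 * w ^ 3 * (1 + w ^ 2) + 16.7784 / 11 * w) / (1 + w ^ 2) ≤
      0.62 + 0.3912 * w := by
    rw [div_le_iff₀ h9]
    nlinarith [mul_nonneg hw0.le (sub_nonneg.2 hw1), mul_nonneg (pow_nonneg hw0.le 2) (sub_nonneg.2 hw1),
      mul_nonneg (pow_nonneg hw0.le 3) (sub_nonneg.2 hw1), mul_nonneg (pow_nonneg hw0.le 4) (sub_nonneg.2 hw1),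
      sq_nonneg (w - 1), sq_nonneg (w ^ 2 - 1), mul_nonneg hw0.le (sq_nonneg (w - 1))]
  linarith

theorem exp_two_le : Real.exp 2 ≤ 7.3892 := by
  have h1 : Real.exp 2 = Real.exp 1 * Real.exp 1 := by rw [← Real.exp_add]; norm_num
  rw [h1]
  have h2 := Real.exp_one_lt_d9
  have h3 := Real.exp_pos 1
  nlinarith

theorem Z_eq (X : ℝ) (hX : 0 < X - 1) :
    (2 + Real.exp (-2) + Real.exp (-2) * X) / (Real.exp (-2) * (X - 1)) =
      1 + (2 * Real.exp 2 + 2) / (X - 1) := by
  have hE : Real.exp (-2) = (Real.exp 2)⁻¹ := Real.exp_neg 2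
  have h2 := Real.exp_pos 2
  rw [hE]
  field_simp
  ring

theorem quad (δ : ℝ) (hδ0 : 0 < δ) : 2 * (δ * (1 + δ)) ≤ Real.exp (2 * δ) - 1 := by
  have := Real.quadratic_le_exp_of_nonneg (by positivity : 0 ≤ 2 * δ)
  nlinarith

theorem low (n : ℕ) (hn : 0 < n) (b : ℕ → ℝ) (hb : ∀ j, b j = -1 ∨ b j = 0 ∨ b j = 1)
    (hb0 : ∃ j, j ≤ n ∧ b j ≠ 0) (C : ℝ)
    (hC : ∀ x : ℝ, 0 ≤ x → x ≤ 1 → |∑ j ∈ range (n + 1), b j * x ^ j| ≤ C) :
    7 / 100 * Real.exp (-(5.59 * Real.sqrt n)) ≤ C := by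
  classical
  have hn' : (0 : ℝ) < n := by exact_mod_cast hn
  obtain ⟨k, ⟨hkn, hbk⟩, hmin⟩ : ∃ k, (k ≤ n ∧ b k ≠ 0) ∧ ∀ j < k, b j = 0 := by
    refine ⟨Nat.find hb0, Nat.find_spec hb0, fun j hj => ?_⟩
    have := Nat.find_min hb0 hj
    by_contra hne
    exact this ⟨hj.le.trans (Nat.find_spec hb0).1, hne⟩
  have habs : |b k| = 1 := by
    rcases hb k with h | h | h
    · rw [h]; norm_num
    · exact absurd h hbk
    · rw [h]; norm_num
  have hb1 : ∀ j, |b j| ≤ 1 := by
    intro j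
    rcases hb j with h | h | h <;> rw [h] <;> norm_num
  have hsplit : ∀ f : ℕ → ℝ, ∑ j ∈ range (n + 1), b j * f j =
      b k * f k + ∑ i ∈ range (n - k), b (k + (i + 1)) * f (k + (i + 1)) := by
    intro f
    have e1 : n + 1 = k + (n - k + 1) := by omega
    rw [e1, sum_range_add, sum_range_succ']
    have e2 : ∑ x ∈ range k, b x * f x = 0 :=
      sum_eq_zero fun x hx => by rw [hmin x (mem_range.1 hx), zero_mul]
    rw [e2, zero_add, add_comm, add_zero]
  rcases Nat.eq_zero_or_pos (n - k) with hm | hm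
  · have h1 := hC 1 zero_le_one le_rfl
    simp only [one_pow] at h1
    rw [hsplit (fun _ => 1), hm] at h1
    simp only [range_zero, sum_empty, add_zero, mul_one] at h1
    rw [habs] at h1
    have h2 : Real.exp (-(5.59 * Real.sqrt n)) ≤ 1 := by
      apply Real.exp_le_one_iff.2
      have := Real.sqrt_nonneg (n : ℝ)
      linarith
    linarith
  set m := n - k with hm'
  have hmr : (0 : ℝ) < m := by exact_mod_cast hm
  have hmn : m ≤ n := Nat.sub_le _ _
  set δ : ℝ := m / n with hδ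
  have hδ0 : 0 < δ := by positivity
  have hδ1 : δ ≤ 1 := by
    rw [hδ, div_le_one hn']
    exact_mod_cast hmn
  set t := Real.exp (-(2 / n)) with ht
  have ht0 : 0 < t := Real.exp_pos _
  have ht1 : t ≤ 1 := by
    apply Real.exp_le_one_iff.2
    have : 0 < 2 / (n : ℝ) := by positivity
    linarith
  have htp : ∀ j : ℕ, t ^ j = Real.exp (-(2 * j / n)) := by
    intro j
    rw [ht, ← Real.exp_nat_mul]
    congr 1
    ring
  set A := t ^ n with hA
  set B := t ^ k with hB
  have hAe : A = Real.exp (-2) := by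
    rw [hA, htp]
    congr 1
    field_simp
  have hBe : B = Real.exp (-2) * Real.exp (2 * δ) := by
    rw [hB, htp, ← Real.exp_add]
    congr 1
    have : (k : ℝ) = n - m := by
      rw [hm', Nat.cast_sub hkn]; ring
    rw [this, hδ]
    field_simp
    ring
  have hA0 : 0 < A := by positivity
  have hx : 2 * δ + 2 * δ ^ 2 ≤ Real.exp (2 * δ) - 1 := by
    have := quad δ hδ0
    linarith only [this]
  have hAB : A < B := by
    rw [hAe, hBe]
    have h1 := Real.exp_pos (-2)
    nlinarith [sq_nonneg δ]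
  have hBA : 0 < B - A := by linarith
  -- the multiplier
  let u : ℕ → ℝ := fun j => 2 / (B - A) * t ^ j + -((A + B) / (B - A))
  set Z := (2 + A + B) / (B - A) with hZ
  have hu : Mult n u Z := by
    have h1 := ((Mult.const n (2 / (B - A))).mul (Mult.geom n t ht0.le ht1)).add
      (Mult.const n (-((A + B) / (B - A))))
    refine h1.mono (le_of_eq ?_)
    rw [abs_neg, abs_of_pos (by positivity), abs_of_pos (by positivity), hZ]
    field_simp
    ring
  have hZ1 : 1 ≤ Z := by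
    rw [hZ, one_le_div hBA]
    linarith
  set l := 2 * Z + 1 / 2 with hl
  have hl1 : 1 ≤ l := by rw [hl]; linarith
  have hll : 2 * Z * l + 1 ≤ l ^ 2 := by
    have : l ^ 2 = 2 * Z * l + 1 / 2 * l := by rw [hl]; ring
    rw [this, hl]
    linarith
  have hZl : Z ≤ l := by rw [hl]; linarith
  -- choice of `r`
  set r := ⌈Real.sqrt (4 / 3 * m)⌉₊ with hr
  have hr0 : 0 < r := Nat.ceil_pos.2 (Real.sqrt_pos.2 (by positivity))
  obtain ⟨i, hi⟩ : ∃ i, r = i + 1 := ⟨r - 1, by omega⟩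
  have hr' : (0 : ℝ) < r := by exact_mod_cast hr0
  have hrm : 4 / 3 * (m : ℝ) ≤ (r : ℝ) ^ 2 := by
    have h1 : Real.sqrt (4 / 3 * m) ≤ r := Nat.le_ceil _
    calc 4 / 3 * (m : ℝ) = Real.sqrt (4 / 3 * m) ^ 2 := (Real.sq_sqrt (by positivity)).symm
      _ ≤ (r : ℝ) ^ 2 := pow_le_pow_left₀ (Real.sqrt_nonneg _) h1 2
  have hir : (i : ℝ) ≤ Real.sqrt (4 / 3 * m) := by
    have h1 : (r : ℝ) < Real.sqrt (4 / 3 * m) + 1 := Nat.ceil_lt_add_one (Real.sqrt_nonneg _)
    rw [hi] at h1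
    push_cast at h1
    linarith
  let F : ℕ → ℝ := fun j => 1 / (r : ℝ) ^ 2 * fj (u j) (i + 1)
  have hF : Mult n F (l ^ i) := by
    have h1 := (Mult.const n (1 / (r : ℝ) ^ 2)).mul (mult_fj hu (by linarith) hl1 hll hZl i)
    refine h1.mono (le_of_eq ?_)
    rw [abs_of_pos (by positivity), hi]
    push_cast
    field_simp
  have hQ := hF.mul hF
  have hmain := hQ b C hC 1 zero_le_one le_rfl
  simp only [one_pow, mul_one] at hmain
  rw [hsplit (fun j => F j * F j)] at hmain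
  -- value at `k`
  have hFk : F k = 1 := by
    have h1 : u k = 1 := by
      show 2 / (B - A) * B + -((A + B) / (B - A)) = 1
      field_simp
      ring
    show 1 / (r : ℝ) ^ 2 * fj (u k) (i + 1) = 1
    rw [h1, fj_one, hi]
    push_cast
    field_simp
  -- the other values
  have hFj : ∀ i' ∈ range m, |F (k + (i' + 1)) * F (k + (i' + 1))| ≤
      9 / 16 * (1 / ((i' : ℝ) + 1) ^ 2) := by
    intro i' hi'
    rw [mem_range] at hi'
    set j := k + (i' + 1) with hj
    -- `t ^ j` is between `A` and `B` and convexity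
    have hconv : t ^ j ≤ B - ((i' : ℝ) + 1) / m * (B - A) := by
      have hc := convexOn_exp.2 (Set.mem_univ (-(2 * (k : ℝ) / n))) (Set.mem_univ (-2 : ℝ))
        (show 0 ≤ 1 - ((i' : ℝ) + 1) / m by
          rw [sub_nonneg, div_le_one hmr]
          exact_mod_cast hi')
        (show 0 ≤ ((i' : ℝ) + 1) / m by positivity) (by ring)
      have e1 : (1 - ((i' : ℝ) + 1) / m) • (-(2 * (k : ℝ) / n)) + (((i' : ℝ) + 1) / m) • (-2 : ℝ) =
          -(2 * (j : ℝ) / n) := by
        rw [smul_eq_mul, smul_eq_mul, hj]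
        have hk : (k : ℝ) = n - m := by rw [hm', Nat.cast_sub hkn]; ring
        push_cast
        rw [hk]
        field_simp
        ring
      rw [e1, ← htp j, ← htp k, smul_eq_mul, smul_eq_mul, ← hAe] at hc
      change t ^ j ≤ (1 - ((i' : ℝ) + 1) / m) * B + ((i' : ℝ) + 1) / m * A at hc
      linarith
    have hjn : j ≤ n := by omega
    have hAj : A ≤ t ^ j := pow_le_pow_of_le_one ht0.le ht1 hjn
    have hjB : t ^ j ≤ B := pow_le_pow_of_le_one ht0.le ht1 (by omega)
    have hq : 0 < ((i' : ℝ) + 1) / m := by positivity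
    have huj : u j = (2 * t ^ j - A - B) / (B - A) := by
      show 2 / (B - A) * t ^ j + -((A + B) / (B - A)) = _
      field_simp
      ring
    have hu1 : 1 - u j = 2 * (B - t ^ j) / (B - A) := by
      rw [huj]
      field_simp
      ring
    have hu2 : 2 * (((i' : ℝ) + 1) / m) ≤ 1 - u j := by
      rw [hu1, le_div_iff₀ hBA]
      nlinarith
    have hu3 : u j < 1 := by linarith
    have hu4 : |u j| ≤ 1 := by
      rw [abs_le]
      constructor
      · rw [huj, le_div_iff₀ hBA]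
        linarith
      · exact hu3.le
    have h5 := fj_bound (u j) hu4 hu3 (i + 1)
    have h6 : |F j| ≤ 3 / 4 * (1 / ((i' : ℝ) + 1)) := by
      show |1 / (r : ℝ) ^ 2 * fj (u j) (i + 1)| ≤ _
      rw [abs_mul, abs_of_pos (by positivity)]
      calc 1 / (r : ℝ) ^ 2 * |fj (u j) (i + 1)| ≤ 1 / (4 / 3 * (m : ℝ)) *
          (2 / (2 * (((i' : ℝ) + 1) / m))) := by
            apply mul_le_mul _ _ (abs_nonneg _) (by positivity)
            · exact one_div_le_one_div_of_le (by positivity) hrm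
            · refine h5.trans ?_
              exact div_le_div_of_nonneg_left (by norm_num) (by positivity) hu2
        _ = _ := by field_simp
    rw [abs_mul]
    calc |F j| * |F j| ≤ (3 / 4 * (1 / ((i' : ℝ) + 1))) * (3 / 4 * (1 / ((i' : ℝ) + 1))) :=
          mul_le_mul h6 h6 (abs_nonneg _) (by positivity)
      _ = _ := by field_simp; norm_num
  have hrest : |∑ i' ∈ range m, b (k + (i' + 1)) * (F (k + (i' + 1)) * F (k + (i' + 1)))| ≤
      9 / 16 * (33 / 20) := by
    calc |∑ i' ∈ range m, b (k + (i' + 1)) * (F (k + (i' + 1)) * F (k + (i' + 1)))|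
        ≤ ∑ i' ∈ range m, |b (k + (i' + 1)) * (F (k + (i' + 1)) * F (k + (i' + 1)))| :=
          abs_sum_le_sum_abs _ _
      _ ≤ ∑ i' ∈ range m, 9 / 16 * (1 / ((i' : ℝ) + 1) ^ 2) := by
          refine sum_le_sum fun i' hi' => ?_
          rw [abs_mul]
          calc |b (k + (i' + 1))| * |F (k + (i' + 1)) * F (k + (i' + 1))| ≤
              1 * (9 / 16 * (1 / ((i' : ℝ) + 1) ^ 2)) :=
                mul_le_mul (hb1 _) (hFj i' hi') (abs_nonneg _) (by norm_num)
            _ = _ := one_mul _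
      _ = 9 / 16 * ∑ i' ∈ range m, 1 / ((i' : ℝ) + 1) ^ 2 := by rw [mul_sum]
      _ ≤ 9 / 16 * (33 / 20) := by
          apply mul_le_mul_of_nonneg_left (sum_inv_sq m) (by norm_num)
  have hmain' : |b k * (F k * F k) + ∑ i' ∈ range m, b (k + (i' + 1)) *
      (F (k + (i' + 1)) * F (k + (i' + 1)))| ≤ l ^ i * l ^ i * C := hmain
  have hlow : 7 / 100 ≤ l ^ i * l ^ i * C := by
    refine le_trans ?_ hmain'
    rw [hFk]
    have h1 : |b k * (1 * 1)| = 1 := by rw [mul_one, mul_one, habs]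
    have h2 := abs_sub_abs_le_abs_sub (b k * (1 * 1))
      (-(∑ i' ∈ range m, b (k + (i' + 1)) * (F (k + (i' + 1)) * F (k + (i' + 1)))))
    rw [h1, abs_neg, sub_neg_eq_add] at h2
    have hr9 : (7 / 100 : ℝ) ≤ 1 - 9 / 16 * (33 / 20) := by norm_num
    exact hr9.trans ((sub_le_sub_left hrest 1).trans h2)
  -- the size of `l`
  have he2 := exp_two_le
  have hq := quad δ hδ0
  have hZe : Z = 1 + (2 * Real.exp 2 + 2) / (Real.exp (2 * δ) - 1) := by
    have h1 : 0 < Real.exp (2 * δ) - 1 := lt_of_lt_of_le (by positivity) hx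
    have h4 : B - A = Real.exp (-2) * (Real.exp (2 * δ) - 1) := by rw [hAe, hBe]; ring
    rw [hZ, h4, hAe, hBe, Z_eq _ h1]
  have hl3 : l ≤ 5 / 2 + 16.7784 / (δ * (1 + δ)) := by
    rw [hl, hZe]
    have h1 : (2 * Real.exp 2 + 2) / (Real.exp (2 * δ) - 1) ≤ 16.7784 / (2 * (δ * (1 + δ))) := by
      apply div_le_div₀ (by norm_num) (by linarith only [he2]) (by positivity) hq
    have h2 : 16.7784 / (δ * (1 + δ)) = 2 * (16.7784 / (2 * (δ * (1 + δ)))) := by
      field_simp
    rw [h2]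
    linarith only [h1]
  have hlog := num δ hδ0 hδ1
  have hl0 : 0 < l := by linarith
  have hlog2 : Real.sqrt δ * Real.log l ≤ 2.42 := by
    refine le_trans ?_ hlog
    apply mul_le_mul_of_nonneg_left _ (Real.sqrt_nonneg _)
    exact Real.log_le_log hl0 hl3
  have hlogl : 0 ≤ Real.log l := Real.log_nonneg hl1
  have hpow : l ^ i * l ^ i ≤ Real.exp (5.59 * Real.sqrt n) := by
    have h1 : l ^ i * l ^ i = Real.exp (2 * i * Real.log l) := by
      rw [← Real.exp_log (pow_pos hl0 i), ← Real.exp_add, Real.log_pow]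
      congr 1
      ring
    rw [h1]
    apply Real.exp_le_exp.2
    have h2 : Real.sqrt (4 / 3 * m) = Real.sqrt (4 / 3) * Real.sqrt δ * Real.sqrt n := by
      rw [← Real.sqrt_mul (by norm_num), ← Real.sqrt_mul (by positivity)]
      congr 1
      rw [hδ]
      field_simp
    have h3 : Real.sqrt (4 / 3) ≤ 1.1548 := by
      rw [Real.sqrt_le_iff]
      norm_num
    have h4 := Real.sqrt_nonneg (4 / 3 : ℝ)
    calc 2 * (i : ℝ) * Real.log l ≤ 2 * Real.sqrt (4 / 3 * m) * Real.log l := by gcongr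
      _ = 2 * Real.sqrt (4 / 3) * (Real.sqrt δ * Real.log l) * Real.sqrt n := by rw [h2]; ring
      _ ≤ 2 * 1.1548 * 2.42 * Real.sqrt n := by gcongr
      _ ≤ 5.59 * Real.sqrt n := by
          apply mul_le_mul_of_nonneg_right _ (Real.sqrt_nonneg _)
          norm_num
  have hC0 : 0 ≤ C := Mult.nonneg_aux hC
  have h1 : 7 / 100 ≤ Real.exp (5.59 * Real.sqrt n) * C :=
    hlow.trans (mul_le_mul_of_nonneg_right hpow hC0)
  have h2 : Real.exp (-(5.59 * Real.sqrt n)) * Real.exp (5.59 * Real.sqrt n) = 1 := by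
    rw [← Real.exp_add]; simp
  calc 7 / 100 * Real.exp (-(5.59 * Real.sqrt n)) ≤
      Real.exp (5.59 * Real.sqrt n) * C * Real.exp (-(5.59 * Real.sqrt n)) := by gcongr
    _ = (Real.exp (-(5.59 * Real.sqrt n)) * Real.exp (5.59 * Real.sqrt n)) * C := by ring
    _ = C := by rw [h2, one_mul]

end Pool.Agent.helper30.Mu
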