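import Mathlib

/-!
# The four nodes
-/

set_option autoImplicit false

namespace Pool.Agent.helper30.Mu

theorem bern_pos {c0 c1 c2 c3 c4 u v : ℝ} (h0 : 0 ≤ c0) (h1 : 0 ≤ c1) (h2 : 0 ≤ c2) (h3 : 0 ≤ c3)
    (h4 : 0 ≤ c4) (hu : 0 ≤ u) (hv : 0 ≤ v) :
    0 ≤ c0 * v ^ 4 + c1 * (u * v ^ 3) + c2 * (u ^ 2 * v ^ 2) + c3 * (u ^ 3 * v) + c4 * u ^ 4 := by
  positivity

theorem num_p0 (y : ℝ) (h1 : (63 / 200 : ℝ) ≤ y) (h2 : y ≤ (243 / 500 : ℝ)) :
    0 ≤ ((y + 191 / 200) * (y + 6967 / 10000) * (y + 4521 / 10000) * (y + 1649 / 5000)) - 1250 * ((y - 191 / 200) * (y - 6967 / 10000) * (y - 4521 / 10000) * (y - 1649 / 5000)) := by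
  have h := bern_pos (c0 := (132707514356 / 7125300675 : ℝ)) (c1 := (745143413573903 / 71253006750 : ℝ))
    (c2 := (677779714074911 / 47502004500 : ℝ)) (c3 := (208016030886532 / 35626503375 : ℝ))
    (c4 := (108367647320581 / 142506013500 : ℝ)) (by norm_num) (by norm_num) (by norm_num)
    (by norm_num) (by norm_num) (sub_nonneg.2 h1) (sub_nonneg.2 h2)
  refine h.trans (le_of_eq ?_)
  ring

theorem num_p1 (y : ℝ) (h1 : (243 / 500 : ℝ) ≤ y) (h2 : y ≤ (529 / 1000 : ℝ)) :
    0 ≤ ((y + 191 / 200) * (y + 6967 / 10000) * (y + 4521 / 10000) * (y + 1649 / 5000)) - 1250 * ((y - 191 / 200) * (y - 6967 / 10000) * (y - 4521 / 10000) * (y - 1649 / 5000)) := by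
  have h := bern_pos (c0 := (325102941961743 / 1709400500 : ℝ)) (c1 := (249929599973394 / 427350125 : ℝ))
    (c2 := (216815646650643 / 341880100 : ℝ)) (c3 := (246958100797137 / 854700250 : ℝ))
    (c4 := (20579596262098 / 427350125 : ℝ)) (by norm_num) (by norm_num) (by norm_num)
    (by norm_num) (by norm_num) (sub_nonneg.2 h1) (sub_nonneg.2 h2)
  refine h.trans (le_of_eq ?_)
  ring

theorem num_p2 (y : ℝ) (h1 : (529 / 1000 : ℝ) ≤ y) (h2 : y ≤ (143 / 250 : ℝ)) :
    0 ≤ ((y + 191 / 200) * (y + 6967 / 10000) * (y + 4521 / 10000) * (y + 1649 / 5000)) - 1250 * ((y - 191 / 200) * (y - 6967 / 10000) * (y - 4521 / 10000) * (y - 1649 / 5000)) := by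
  have h := bern_pos (c0 := (20579596262098 / 427350125 : ℝ)) (c1 := (82315439396431 / 854700250 : ℝ))
    (c2 := (96222264848979 / 1709400500 : ℝ)) (c3 := (2189421776827 / 85470025 : ℝ))
    (c4 := (27743623207531 / 1709400500 : ℝ)) (by norm_num) (by norm_num) (by norm_num)
    (by norm_num) (by norm_num) (sub_nonneg.2 h1) (sub_nonneg.2 h2)
  refine h.trans (le_of_eq ?_)
  ring

theorem num_p3 (y : ℝ) (h1 : (143 / 250 : ℝ) ≤ y) (h2 : y ≤ (263 / 400 : ℝ)) :
    0 ≤ ((y + 191 / 200) * (y + 6967 / 10000) * (y + 4521 / 10000) * (y + 1649 / 5000)) - 1250 * ((y - 191 / 200) * (y - 6967 / 10000) * (y - 4521 / 10000) * (y - 1649 / 5000)) := by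
  have h := bern_pos (c0 := (110974492830124 / 106879510125 : ℝ)) (c1 := (978261496771792 / 106879510125 : ℝ))
    (c2 := (1448558776326179 / 35626503375 : ℝ)) (c3 := (6433877988526594 / 106879510125 : ℝ))
    (c4 := (112879846213744 / 4275180405 : ℝ)) (by norm_num) (by norm_num) (by norm_num)
    (by norm_num) (by norm_num) (sub_nonneg.2 h1) (sub_nonneg.2 h2)
  refine h.trans (le_of_eq ?_)
  ring

theorem num_p4 (y : ℝ) (h1 : (263 / 400 : ℝ) ≤ y) (h2 : y ≤ (1 : ℝ)) :
    0 ≤ ((y + 191 / 200) * (y + 6967 / 10000) * (y + 4521 / 10000) * (y + 1649 / 5000)) - 1250 * ((y - 191 / 200) * (y - 6967 / 10000) * (y - 4521 / 10000) * (y - 1649 / 5000)) := by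
  have h := bern_pos (c0 := (823940483312 / 8035478125 : ℝ)) (c1 := (44865398162426 / 40177390625 : ℝ))
    (c2 := (156168230574093 / 40177390625 : ℝ)) (c3 := (166014383879648 / 40177390625 : ℝ))
    (c4 := (410288160796 / 40177390625 : ℝ)) (by norm_num) (by norm_num) (by norm_num)
    (by norm_num) (by norm_num) (sub_nonneg.2 h1) (sub_nonneg.2 h2)
  refine h.trans (le_of_eq ?_)
  ring

theorem num_p (y : ℝ) (h1 : (63 / 200 : ℝ) ≤ y) (h2 : y ≤ 1) :
    0 ≤ ((y + 191 / 200) * (y + 6967 / 10000) * (y + 4521 / 10000) * (y + 1649 / 5000)) - 1250 * ((y - 191 / 200) * (y - 6967 / 10000) * (y - 4521 / 10000) * (y - 1649 / 5000)) := by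
  rcases le_or_gt y (243 / 500 : ℝ) with k0 | k0
  · exact num_p0 y (by linarith) k0
  rcases le_or_gt y (529 / 1000 : ℝ) with k1 | k1
  · exact num_p1 y (by linarith) k1
  rcases le_or_gt y (143 / 250 : ℝ) with k2 | k2
  · exact num_p2 y (by linarith) k2
  rcases le_or_gt y (263 / 400 : ℝ) with k3 | k3
  · exact num_p3 y (by linarith) k3
  exact num_p4 y (by linarith) (by linarith)

theorem num_m0 (y : ℝ) (h1 : (63 / 200 : ℝ) ≤ y) (h2 : y ≤ (179 / 500 : ℝ)) :
    0 ≤ ((y + 191 / 200) * (y + 6967 / 10000) * (y + 4521 / 10000) * (y + 1649 / 5000)) + 1250 * ((y - 191 / 200) * (y - 6967 / 10000) * (y - 4521 / 10000) * (y - 1649 / 5000)) := by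
  have h := bern_pos (c0 := (31378115983068 / 85470025 : ℝ)) (c1 := (760271049826457 / 854700250 : ℝ))
    (c2 := (1264874640362427 / 1709400500 : ℝ)) (c3 := (105050177359788 / 427350125 : ℝ))
    (c4 := (50444309093779 / 1709400500 : ℝ)) (by norm_num) (by norm_num) (by norm_num)
    (by norm_num) (by norm_num) (sub_nonneg.2 h1) (sub_nonneg.2 h2)
  refine h.trans (le_of_eq ?_)
  ring

theorem num_m1 (y : ℝ) (h1 : (179 / 500 : ℝ) ≤ y) (h2 : y ≤ (379 / 1000 : ℝ)) :
    0 ≤ ((y + 191 / 200) * (y + 6967 / 10000) * (y + 4521 / 10000) * (y + 1649 / 5000)) + 1250 * ((y - 191 / 200) * (y - 6967 / 10000) * (y - 4521 / 10000) * (y - 1649 / 5000)) := by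
  have h := bern_pos (c0 := (50444309093779 / 97240500 : ℝ)) (c1 := (23776326917356 / 24310125 : ℝ))
    (c2 := (18619036637801 / 32413500 : ℝ)) (c3 := (447920937089 / 1944810 : ℝ))
    (c4 := (2830395845548 / 24310125 : ℝ)) (by norm_num) (by norm_num) (by norm_num)
    (by norm_num) (by norm_num) (sub_nonneg.2 h1) (sub_nonneg.2 h2)
  refine h.trans (le_of_eq ?_)
  ring

theorem num_m2 (y : ℝ) (h1 : (379 / 1000 : ℝ) ≤ y) (h2 : y ≤ (801 / 2000 : ℝ)) :
    0 ≤ ((y + 191 / 200) * (y + 6967 / 10000) * (y + 4521 / 10000) * (y + 1649 / 5000)) + 1250 * ((y - 191 / 200) * (y - 6967 / 10000) * (y - 4521 / 10000) * (y - 1649 / 5000)) := by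
  have h := bern_pos (c0 := (45286333528768 / 427350125 : ℝ)) (c1 := (54977301622932 / 85470025 : ℝ))
    (c2 := (790244403829617 / 427350125 : ℝ)) (c3 := (914254490392126 / 427350125 : ℝ))
    (c4 := (354144876154776 / 427350125 : ℝ)) (by norm_num) (by norm_num) (by norm_num)
    (by norm_num) (by norm_num) (sub_nonneg.2 h1) (sub_nonneg.2 h2)
  refine h.trans (le_of_eq ?_)
  ring

theorem num_m3 (y : ℝ) (h1 : (801 / 2000 : ℝ) ≤ y) (h2 : y ≤ (243 / 500 : ℝ)) :
    0 ≤ ((y + 191 / 200) * (y + 6967 / 10000) * (y + 4521 / 10000) * (y + 1649 / 5000)) + 1250 * ((y - 191 / 200) * (y - 6967 / 10000) * (y - 4521 / 10000) * (y - 1649 / 5000)) := by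
  have h := bern_pos (c0 := (39349430683864 / 11875501125 : ℝ)) (c1 := (936679721386 / 29322225 : ℝ))
    (c2 := (401605725586567 / 3958500375 : ℝ)) (c3 := (1285145645798968 / 11875501125 : ℝ))
    (c4 := (145063525808036 / 3958500375 : ℝ)) (by norm_num) (by norm_num) (by norm_num)
    (by norm_num) (by norm_num) (sub_nonneg.2 h1) (sub_nonneg.2 h2)
  refine h.trans (le_of_eq ?_)
  ring

theorem num_m4 (y : ℝ) (h1 : (243 / 500 : ℝ) ≤ y) (h2 : y ≤ (263 / 400 : ℝ)) :
    0 ≤ ((y + 191 / 200) * (y + 6967 / 10000) * (y + 4521 / 10000) * (y + 1649 / 5000)) + 1250 * ((y - 191 / 200) * (y - 6967 / 10000) * (y - 4521 / 10000) * (y - 1649 / 5000)) := by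
  have h := bern_pos (c0 := (3916715196816972 / 1730160900125 : ℝ)) (c1 := (23891940561837896 / 1730160900125 : ℝ))
    (c2 := (46746060895811301 / 1730160900125 : ℝ)) (c3 := (31353222009877602 / 1730160900125 : ℝ))
    (c4 := (269872710605744 / 69206436005 : ℝ)) (by norm_num) (by norm_num) (by norm_num)
    (by norm_num) (by norm_num) (sub_nonneg.2 h1) (sub_nonneg.2 h2)
  refine h.trans (le_of_eq ?_)
  ring

theorem num_m5 (y : ℝ) (h1 : (263 / 400 : ℝ) ≤ y) (h2 : y ≤ (829 / 1000 : ℝ)) :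
    0 ≤ ((y + 191 / 200) * (y + 6967 / 10000) * (y + 4521 / 10000) * (y + 1649 / 5000)) + 1250 * ((y - 191 / 200) * (y - 6967 / 10000) * (y - 4521 / 10000) * (y - 1649 / 5000)) := by
  have h := bern_pos (c0 := (269872710605744 / 69206436005 : ℝ)) (c1 := (22621320111271198 / 1730160900125 : ℝ))
    (c2 := (20550355199992089 / 1730160900125 : ℝ)) (c3 := (2751807387471284 / 1730160900125 : ℝ))
    (c4 := (240385819663168 / 1730160900125 : ℝ)) (by norm_num) (by norm_num) (by norm_num)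
    (by norm_num) (by norm_num) (sub_nonneg.2 h1) (sub_nonneg.2 h2)
  refine h.trans (le_of_eq ?_)
  ring

theorem num_m6 (y : ℝ) (h1 : (829 / 1000 : ℝ) ≤ y) (h2 : y ≤ (1829 / 2000 : ℝ)) :
    0 ≤ ((y + 191 / 200) * (y + 6967 / 10000) * (y + 4521 / 10000) * (y + 1649 / 5000)) + 1250 * ((y - 191 / 200) * (y - 6967 / 10000) * (y - 4521 / 10000) * (y - 1649 / 5000)) := by
  have h := bern_pos (c0 := (240385819663168 / 106879510125 : ℝ)) (c1 := (69020938687708 / 106879510125 : ℝ))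
    (c2 := (726354645117107 / 35626503375 : ℝ)) (c3 := (1299720763966718 / 21375902025 : ℝ))
    (c4 := (4281881270673184 / 106879510125 : ℝ)) (by norm_num) (by norm_num) (by norm_num)
    (by norm_num) (by norm_num) (sub_nonneg.2 h1) (sub_nonneg.2 h2)
  refine h.trans (le_of_eq ?_)
  ring

theorem num_m7 (y : ℝ) (h1 : (1829 / 2000 : ℝ) ≤ y) (h2 : y ≤ (1 : ℝ)) :
    0 ≤ ((y + 191 / 200) * (y + 6967 / 10000) * (y + 4521 / 10000) * (y + 1649 / 5000)) + 1250 * ((y - 191 / 200) * (y - 6967 / 10000) * (y - 4521 / 10000) * (y - 1649 / 5000)) := by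
  have h := bern_pos (c0 := (4281881270673184 / 106879510125 : ℝ)) (c1 := (27756446345551882 / 106879510125 : ℝ))
    (c2 := (21984197170835399 / 35626503375 : ℝ)) (c3 := (67684189626256384 / 106879510125 : ℝ))
    (c4 := (5067973891159052 / 21375902025 : ℝ)) (by norm_num) (by norm_num) (by norm_num)
    (by norm_num) (by norm_num) (sub_nonneg.2 h1) (sub_nonneg.2 h2)
  refine h.trans (le_of_eq ?_)
  ring

theorem num_m (y : ℝ) (h1 : (63 / 200 : ℝ) ≤ y) (h2 : y ≤ 1) :
    0 ≤ ((y + 191 / 200) * (y + 6967 / 10000) * (y + 4521 / 10000) * (y + 1649 / 5000)) + 1250 * ((y - 191 / 200) * (y - 6967 / 10000) * (y - 4521 / 10000) * (y - 1649 / 5000)) := by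
  rcases le_or_gt y (179 / 500 : ℝ) with k0 | k0
  · exact num_m0 y (by linarith) k0
  rcases le_or_gt y (379 / 1000 : ℝ) with k1 | k1
  · exact num_m1 y (by linarith) k1
  rcases le_or_gt y (801 / 2000 : ℝ) with k2 | k2
  · exact num_m2 y (by linarith) k2
  rcases le_or_gt y (243 / 500 : ℝ) with k3 | k3
  · exact num_m3 y (by linarith) k3
  rcases le_or_gt y (263 / 400 : ℝ) with k4 | k4
  · exact num_m4 y (by linarith) k4
  rcases le_or_gt y (829 / 1000 : ℝ) with k5 | k5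
  · exact num_m5 y (by linarith) k5
  rcases le_or_gt y (1829 / 2000 : ℝ) with k6 | k6
  · exact num_m6 y (by linarith) k6
  exact num_m7 y (by linarith) (by linarith)

/-- the product for the four nodes `0.955, 0.6967, 0.4521, 0.3298` on `[0.315, 1]` -/
theorem nodes_le (y : ℝ) (h1 : (63 / 200 : ℝ) ≤ y) (h2 : y ≤ 1) :
    |y - 191 / 200| / (y + 191 / 200) * (|y - 6967 / 10000| / (y + 6967 / 10000)) *
      (|y - 4521 / 10000| / (y + 4521 / 10000)) * (|y - 1649 / 5000| / (y + 1649 / 5000)) ≤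
        1 / 1250 := by
  have hp := num_p y h1 h2
  have hm := num_m y h1 h2
  have hy : 0 < y := by linarith
  have e : |y - 191 / 200| / (y + 191 / 200) * (|y - 6967 / 10000| / (y + 6967 / 10000)) *
      (|y - 4521 / 10000| / (y + 4521 / 10000)) * (|y - 1649 / 5000| / (y + 1649 / 5000)) =
      |(y - 191 / 200) * (y - 6967 / 10000) * (y - 4521 / 10000) * (y - 1649 / 5000)| /
        ((y + 191 / 200) * (y + 6967 / 10000) * (y + 4521 / 10000) * (y + 1649 / 5000)) := by
    rw [abs_mul, abs_mul, abs_mul]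
    field_simp
  rw [e, div_le_div_iff₀ (by positivity) (by norm_num), one_mul]
  have h3 : |(y - 191 / 200) * (y - 6967 / 10000) * (y - 4521 / 10000) * (y - 1649 / 5000)| ≤
      ((y + 191 / 200) * (y + 6967 / 10000) * (y + 4521 / 10000) * (y + 1649 / 5000)) / 1250 := by
    rw [abs_le]
    constructor
    · rw [neg_le, ← sub_nonneg]
      linarith
    · linarith
  linarith

theorem log_1250 : 72 / 7 * Real.log 2 ≤ Real.log 1250 := by
  have h : Real.log ((2 : ℝ) ^ 72) ≤ Real.log ((1250 : ℝ) ^ 7) :=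
    Real.log_le_log (by norm_num) (by norm_num)
  rw [Real.log_pow, Real.log_pow] at h
  push_cast at h
  linarith

end Pool.Agent.helper30.Mu
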