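import Pool.Agent.helper30.Mu.Est

/-!
# Asymptotics
-/

set_option autoImplicit false

namespace Pool.Agent.helper30.Mu

open Finset Filter Topology

theorem sum_div (L : ℕ) (hL : 0 < L) (K : ℕ) :
    2 * ((∑ k ∈ range (L * K), k / L : ℕ) : ℝ) = L * K * (K - 1) := by
  induction K with
  | zero => simp
  | succ K ih =>
    rw [Nat.mul_succ, sum_range_add]
    have e : ∑ x ∈ range L, (L * K + x) / L = L * K := by
      have : ∀ x ∈ range L, (L * K + x) / L = K := by
        intro x hx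
        rw [mem_range] at hx
        rw [Nat.mul_add_div hL, Nat.div_eq_of_lt hx, add_zero]
      rw [sum_congr rfl this, sum_const, card_range, smul_eq_mul]
    rw [e]
    push_cast
    push_cast at ih
    linarith

theorem log_prod (L : ℕ) (hL : 0 < L) (K : ℕ) (ρ : ℝ) (hρ : 0 < ρ) (hρ1 : ρ < 1) (D : ℝ)
    (hD : 0 ≤ D) :
    Real.log (∏ k ∈ range (L * K), (2 * (D * ρ ^ (k / L) / ρ ^ K) + 3)) ≤
      L * K * Real.log (2 * D + 3) + L * K * (K + 1) / 2 * (-Real.log ρ) := by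
  have h1 : ∏ k ∈ range (L * K), (2 * (D * ρ ^ (k / L) / ρ ^ K) + 3) ≤
      ∏ k ∈ range (L * K), ((2 * D + 3) * (ρ ^ (k / L) / ρ ^ K)) := by
    apply Finset.prod_le_prod
    · intro k _; positivity
    · intro k hk
      rw [mem_range] at hk
      have h2 : k / L < K := Nat.div_lt_of_lt_mul hk
      have h3 : 1 ≤ ρ ^ (k / L) / ρ ^ K := by
        rw [one_le_div (by positivity)]
        exact pow_le_pow_of_le_one hρ.le hρ1.le h2.le
      have : 2 * (D * ρ ^ (k / L) / ρ ^ K) = 2 * D * (ρ ^ (k / L) / ρ ^ K) := by ring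
      rw [this]
      nlinarith
  have h0 : 0 < ∏ k ∈ range (L * K), (2 * (D * ρ ^ (k / L) / ρ ^ K) + 3) :=
    prod_pos fun k _ => by positivity
  refine (Real.log_le_log h0 h1).trans (le_of_eq ?_)
  rw [prod_mul_distrib, prod_const, card_range, prod_div_distrib, prod_pow_eq_pow_sum, prod_const,
    card_range, Real.log_mul (by positivity) (by positivity), Real.log_pow,
    Real.log_div (by positivity) (by positivity), Real.log_pow, Real.log_pow, Real.log_pow]
  have h4 := sum_div L hL K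
  push_cast at h4 ⊢
  have h5 : (∑ k ∈ range (L * K), ((k / L : ℕ) : ℝ)) = L * K * (K - 1) / 2 := by linarith
  rw [h5]
  ring

theorem tendsto_log_div_sqrt :
    Tendsto (fun n : ℕ => Real.log n / Real.sqrt n) atTop (𝓝 0) := by
  have h1 : Tendsto (fun x : ℝ => Real.log x / x) atTop (𝓝 0) :=
    Real.isLittleO_log_id_atTop.tendsto_div_nhds_zero
  have h2 : Tendsto (fun n : ℕ => Real.sqrt (n : ℝ)) atTop atTop :=
    Real.tendsto_sqrt_atTop.comp tendsto_natCast_atTop_atTop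
  have h3 := (h1.comp h2).const_mul 2
  rw [mul_zero] at h3
  refine h3.congr fun n => ?_
  simp only [Function.comp_apply]
  rw [Real.log_sqrt (Nat.cast_nonneg _)]
  ring

theorem tendsto_one_div_sqrt : Tendsto (fun n : ℕ => 1 / Real.sqrt (n : ℝ)) atTop (𝓝 0) := by
  have h2 : Tendsto (fun n : ℕ => Real.sqrt (n : ℝ)) atTop atTop :=
    Real.tendsto_sqrt_atTop.comp tendsto_natCast_atTop_atTop
  exact h2.inv_tendsto_atTop.congr fun n => by simp

/-- everything which is used about small terms -/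
theorem small (a b δ : ℝ) (hδ : 0 < δ) :
    ∀ᶠ n : ℕ in atTop, a + b * Real.log n ≤ δ * Real.sqrt n := by
  have h1 := ((tendsto_one_div_sqrt.const_mul a).add (tendsto_log_div_sqrt.const_mul b))
  rw [mul_zero, mul_zero, add_zero] at h1
  have h2 := h1.eventually (gt_mem_nhds hδ)
  filter_upwards [h2, eventually_gt_atTop 0] with n hn hn0
  have hs : 0 < Real.sqrt (n : ℝ) := Real.sqrt_pos.2 (by exact_mod_cast hn0)
  have h3 : a * (1 / Real.sqrt n) + b * (Real.log n / Real.sqrt n) =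
      (a + b * Real.log n) / Real.sqrt n := by ring
  rw [h3, div_lt_iff₀ hs] at hn
  exact hn.le

section
variable (κ : ℝ) (hκ : 0 < κ) (hκ1 : κ < 1) (L : ℕ) (hL : 0 < L) (α : ℕ → ℝ) (hα : ∀ i, 0 < α i)
  (A : ℝ) (hA : 0 < A) (hαA : ∀ i, A ≤ α i) (ρ : ℝ) (hρ : 0 < ρ) (hρ1 : ρ < 1)
  (h : ∀ y, κ ≤ y → y ≤ 1 → ∏ i ∈ range L, |y - α i| / (y + α i) ≤ ρ)
include hκ hκ1 hL hα hA hαA hρ hρ1 h

theorem card_cond (θ : ℝ) (hθ : 0 < θ)
    (hθ2 : L * (-Real.log ρ) * θ ^ 2 / 2 < (1 - κ) * Real.log 2) :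
    ∀ᶠ n : ℕ in atTop, ((n : ℝ) + 1) * ∏ k ∈ range (L * ⌊θ * Real.sqrt n⌋₊),
      (2 * ((n : ℝ) ^ 2 * Real.sqrt (2 / A) * ρ ^ (k / L) / ρ ^ ⌊θ * Real.sqrt n⌋₊) + 3) <
        2 ^ (n - ⌈κ * n⌉₊) := by
  set Λ := -Real.log ρ with hΛ
  have hΛ0 : 0 < Λ := by
    have := Real.log_neg hρ hρ1
    rw [hΛ]; linarith
  set S := Real.sqrt (2 / A) with hS
  have hS0 : 0 ≤ S := Real.sqrt_nonneg _
  set δ := (1 - κ) * Real.log 2 - L * Λ * θ ^ 2 / 2 with hδ
  have hδ0 : 0 < δ := by rw [hδ]; linarith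
  have hL' : (0 : ℝ) < L := by exact_mod_cast hL
  -- `√n` terms
  have e1 := small (Real.log (2 * S + 3) + Λ / 2) 2 (δ / (2 * (L * θ))) (by positivity)
  have e2 := small (2 * Real.log 2) 1 (δ / 4) (by positivity)
  filter_upwards [e1, e2, eventually_gt_atTop 0] with n h1 h2 hn0
  have hn' : (1 : ℝ) ≤ n := by exact_mod_cast hn0
  have hn'' : (0 : ℝ) < n := by linarith
  have hs1 : 1 ≤ Real.sqrt n := by
    rw [show (1 : ℝ) = Real.sqrt 1 by simp]
    exact Real.sqrt_le_sqrt hn'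
  have hss : Real.sqrt n * Real.sqrt n = n := Real.mul_self_sqrt hn''.le
  set K := ⌊θ * Real.sqrt n⌋₊ with hK
  have hKle : (K : ℝ) ≤ θ * Real.sqrt n := Nat.floor_le (by positivity)
  have hpos : 0 < ((n : ℝ) + 1) * ∏ k ∈ range (L * K),
      (2 * ((n : ℝ) ^ 2 * S * ρ ^ (k / L) / ρ ^ K) + 3) :=
    mul_pos (by positivity) (prod_pos fun k _ => by positivity)
  rw [← Real.log_lt_log_iff hpos (by positivity), Real.log_mul (by positivity)
    (ne_of_gt (prod_pos fun k _ => by positivity)), Real.log_pow]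
  have h3 := log_prod L hL K ρ hρ hρ1 ((n : ℝ) ^ 2 * S) (by positivity)
  rw [← hΛ] at h3
  have h4 : Real.log (2 * ((n : ℝ) ^ 2 * S) + 3) ≤ Real.log (2 * S + 3) + 2 * Real.log n := by
    have : 2 * ((n : ℝ) ^ 2 * S) + 3 ≤ (2 * S + 3) * (n : ℝ) ^ 2 := by nlinarith
    calc Real.log (2 * ((n : ℝ) ^ 2 * S) + 3) ≤ Real.log ((2 * S + 3) * (n : ℝ) ^ 2) :=
          Real.log_le_log (by positivity) this
      _ = _ := by
          rw [Real.log_mul (by positivity) (by positivity), Real.log_pow]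
          push_cast; ring
  have h4' : 0 ≤ Real.log (2 * ((n : ℝ) ^ 2 * S) + 3) := Real.log_nonneg (by
    have : 0 ≤ 2 * ((n : ℝ) ^ 2 * S) := by positivity
    linarith)
  have h5 : L * K * Real.log (2 * ((n : ℝ) ^ 2 * S) + 3) + L * K * (K + 1) / 2 * Λ ≤
      L * Λ * θ ^ 2 / 2 * n + δ / 2 * n := by
    have a1 : (L : ℝ) * K * (K + 1) / 2 * Λ = L * Λ / 2 * K ^ 2 + L * K * (Λ / 2) := by ring
    have a2 : (K : ℝ) ^ 2 ≤ θ ^ 2 * n := by
      calc (K : ℝ) ^ 2 ≤ (θ * Real.sqrt n) ^ 2 := pow_le_pow_left₀ (Nat.cast_nonneg _) hKle 2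
        _ = θ ^ 2 * n := by rw [mul_pow, Real.sq_sqrt hn''.le]
    have a3 : L * Λ / 2 * (K : ℝ) ^ 2 ≤ L * Λ / 2 * (θ ^ 2 * n) := by gcongr
    have a4 : (L : ℝ) * K * (Real.log (2 * ((n : ℝ) ^ 2 * S) + 3) + Λ / 2) ≤ δ / 2 * n := by
      calc (L : ℝ) * K * (Real.log (2 * ((n : ℝ) ^ 2 * S) + 3) + Λ / 2)
          ≤ L * (θ * Real.sqrt n) * (Real.log (2 * ((n : ℝ) ^ 2 * S) + 3) + Λ / 2) := by
            gcongr
        _ ≤ L * (θ * Real.sqrt n) * (δ / (2 * (L * θ)) * Real.sqrt n) := by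
            apply mul_le_mul_of_nonneg_left _ (by positivity)
            linarith
        _ = δ / 2 * (Real.sqrt n * Real.sqrt n) := by field_simp
        _ = _ := by rw [hss]
    rw [a1]
    linarith
  have h6 : Real.log ((n : ℝ) + 1) ≤ Real.log 2 + Real.log n := by
    rw [← Real.log_mul (by norm_num) (by positivity)]
    exact Real.log_le_log (by positivity) (by linarith)
  have h7 : (1 - κ) * n - 1 ≤ ((n - ⌈κ * n⌉₊ : ℕ) : ℝ) := by
    have b1 : (⌈κ * n⌉₊ : ℝ) < κ * n + 1 := Nat.ceil_lt_add_one (by positivity)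
    have b2 : ⌈κ * (n : ℝ)⌉₊ ≤ n := by
      rw [Nat.ceil_le]
      nlinarith
    rw [Nat.cast_sub b2]
    linarith
  have hl2 : 0 < Real.log 2 := Real.log_pos (by norm_num)
  have h8 : ((1 - κ) * n - 1) * Real.log 2 ≤ ((n - ⌈κ * n⌉₊ : ℕ) : ℝ) * Real.log 2 := by gcongr
  have h9 : δ / 4 * Real.sqrt n ≤ δ / 4 * n := by
    apply mul_le_mul_of_nonneg_left _ (by positivity)
    nlinarith
  have h10 : δ * n = (1 - κ) * Real.log 2 * n - L * Λ * θ ^ 2 / 2 * n := by rw [hδ]; ring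
  have h11 : 0 < δ * n := by positivity
  have h12 : ((1 - κ) * n - 1) * Real.log 2 = (1 - κ) * Real.log 2 * n - Real.log 2 := by ring
  rw [h12] at h8
  clear_value δ
  linarith

/-- the upper bound for the polynomials of the construction -/
theorem exists_small (θ : ℝ) (hθ : 0 < θ)
    (hθ2 : L * (-Real.log ρ) * θ ^ 2 / 2 < (1 - κ) * Real.log 2) (c : ℝ)
    (hc : c < θ * (-Real.log ρ)) :
    ∀ᶠ n : ℕ in atTop, ∃ b : ℕ → ℝ, (∀ j, b j = -1 ∨ b j = 0 ∨ b j = 1) ∧
      (∀ j, n < j → b j = 0) ∧ (∃ j, b j ≠ 0) ∧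
      ∀ x : ℝ, 0 ≤ x → x ≤ 1 → |∑ j ∈ range (n + 1), b j * x ^ j| ≤
        Real.exp (-(c * Real.sqrt n)) := by
  set Λ := -Real.log ρ with hΛ
  have hΛ0 : 0 < Λ := by
    have := Real.log_neg hρ hρ1
    rw [hΛ]; linarith
  have hl2 : 0 < Real.log 2 := Real.log_pos (by norm_num)
  have hL' : (0 : ℝ) < L := by exact_mod_cast hL
  have e1 := card_cond κ hκ hκ1 L hL α hα A hA hαA ρ hρ hρ1 h θ hθ hθ2
  have e2 := small (Real.log 2 + Λ) 2 (θ * Λ - c) (by linarith)
  have e4 := small (|c| + 1) 1 (κ * Real.log 2) (by positivity)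
  filter_upwards [e1, e2, eventually_ge_atTop ⌈L * θ⌉₊, e4, eventually_gt_atTop 0] with
    n h1 h2 h3 h4 hn0
  rw [Nat.ceil_le] at h3
  have hn' : (1 : ℝ) ≤ n := by exact_mod_cast hn0
  have hn'' : (0 : ℝ) < n := by linarith
  have hs1 : 1 ≤ Real.sqrt n := by
    rw [show (1 : ℝ) = Real.sqrt 1 by simp]
    exact Real.sqrt_le_sqrt hn'
  have hss : Real.sqrt n * Real.sqrt n = n := Real.mul_self_sqrt hn''.le
  have hsn : Real.sqrt n ≤ n := by nlinarith
  obtain ⟨b, hb, hbJ, hb0, hbx⟩ := constr κ hκ L hL α hα ρ hρ h A hA hαA n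
    ⌊θ * Real.sqrt n⌋₊ hn0 h1
  set K := ⌊θ * Real.sqrt n⌋₊ with hK
  have hKle : (K : ℝ) ≤ θ * Real.sqrt n := Nat.floor_le (by positivity)
  have hKge : θ * Real.sqrt n - 1 < K := Nat.sub_one_lt_floor _
  have hlogn : 0 ≤ Real.log n := Real.log_nonneg hn'
  have hb1 : ∀ j, |b j| ≤ 1 := by
    intro j
    rcases hb j with h | h | h <;> rw [h] <;> norm_num
  refine ⟨b, hb, ?_, hb0, fun x hx hx1 => ?_⟩
  · intro j hj
    apply hbJ
    rw [mem_Ico]
    omega
  by_cases hx2 : 1 / 2 ≤ x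
  · have g1 := hbx x hx hx1
    set P := ∑ j ∈ range (n + 1), b j * x ^ j with hP
    have g2 : P ^ 2 ≤ (2 * (n : ℝ) ^ 2 * ρ ^ K) ^ 2 := by
      have a1 : (L : ℝ) * K ≤ (n : ℝ) ^ 4 := by
        calc (L : ℝ) * K ≤ L * (θ * Real.sqrt n) := by gcongr
          _ = (L * θ) * Real.sqrt n := by ring
          _ ≤ n * n := mul_le_mul h3 hsn (by positivity) (by positivity)
          _ = (n : ℝ) ^ 2 := by ring
          _ ≤ (n : ℝ) ^ 4 := pow_le_pow_right₀ hn' (by norm_num)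
      have a2 : P ^ 2 ≤ 2 * (x * P ^ 2) := by nlinarith [sq_nonneg P]
      calc P ^ 2 ≤ 2 * (x * P ^ 2) := a2
        _ ≤ 2 * ((L * K + (n : ℝ) ^ 4) * (ρ ^ K) ^ 2) := by gcongr
        _ ≤ 2 * (((n : ℝ) ^ 4 + (n : ℝ) ^ 4) * (ρ ^ K) ^ 2) := by gcongr
        _ = _ := by ring
    have g3 : |P| ≤ 2 * (n : ℝ) ^ 2 * ρ ^ K := abs_le_of_sq_le_sq g2 (by positivity)
    refine g3.trans ?_
    have g4 : 2 * (n : ℝ) ^ 2 * ρ ^ K = Real.exp (Real.log 2 + 2 * Real.log n - Λ * K) := by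
      rw [Real.exp_sub, Real.exp_add, Real.exp_log (by norm_num),
        show (2 : ℝ) * Real.log n = Real.log ((n : ℝ) ^ 2) by rw [Real.log_pow]; push_cast; ring,
        Real.exp_log (by positivity)]
      have : Real.exp (Λ * K) = (ρ ^ K)⁻¹ := by
        rw [hΛ, neg_mul, Real.exp_neg, mul_comm, Real.exp_nat_mul, Real.exp_log hρ]
      rw [this, div_inv_eq_mul]
    rw [g4]
    apply Real.exp_le_exp.2
    have g5 : Λ * (θ * Real.sqrt n - 1) ≤ Λ * K := by gcongr
    have g6 : (θ * Λ - c) * Real.sqrt n = Λ * (θ * Real.sqrt n - 1) - c * Real.sqrt n + Λ := by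
      ring
    linarith
  · push Not at hx2
    have g1 : ∀ j ∈ range (n + 1), |b j * x ^ j| ≤ Real.exp (-(κ * n * Real.log 2)) := by
      intro j _
      by_cases hj : j ∈ Finset.Ico ⌈κ * (n : ℝ)⌉₊ n
      · rw [mem_Ico, Nat.ceil_le] at hj
        rw [abs_mul, abs_of_nonneg (pow_nonneg hx j)]
        calc |b j| * x ^ j ≤ 1 * (1 / 2) ^ j := by
              apply mul_le_mul (hb1 j) (pow_le_pow_left₀ hx hx2.le j) (by positivity) (by norm_num)
          _ = Real.exp (-(j * Real.log 2)) := by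
              rw [one_mul, Real.exp_neg, Real.exp_nat_mul, Real.exp_log (by norm_num), one_div,
                inv_pow]
          _ ≤ Real.exp (-(κ * n * Real.log 2)) := by
              apply Real.exp_le_exp.2
              have := mul_le_mul_of_nonneg_right hj.1 hl2.le
              linarith
      · rw [hbJ j hj, zero_mul, abs_zero]
        exact (Real.exp_pos _).le
    calc |∑ j ∈ range (n + 1), b j * x ^ j| ≤ ∑ j ∈ range (n + 1), |b j * x ^ j| :=
          abs_sum_le_sum_abs _ _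
      _ ≤ ∑ j ∈ range (n + 1), Real.exp (-(κ * n * Real.log 2)) := sum_le_sum g1
      _ = (n + 1) * Real.exp (-(κ * n * Real.log 2)) := by
          rw [sum_const, card_range, nsmul_eq_mul]; push_cast; ring
      _ ≤ Real.exp (Real.log 2 + Real.log n) * Real.exp (-(κ * n * Real.log 2)) := by
          apply mul_le_mul_of_nonneg_right _ (Real.exp_pos _).le
          rw [Real.exp_add, Real.exp_log (by norm_num), Real.exp_log hn'']
          linarith
      _ ≤ Real.exp (-(c * Real.sqrt n)) := by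
          rw [← Real.exp_add]
          apply Real.exp_le_exp.2
          have b1 := mul_le_mul_of_nonneg_right h4 (Real.sqrt_nonneg n)
          have b2 : κ * Real.log 2 * Real.sqrt n * Real.sqrt n = κ * n * Real.log 2 := by
            rw [mul_assoc, hss]; ring
          rw [b2] at b1
          have b3 : c * Real.sqrt n ≤ |c| * Real.sqrt n :=
            mul_le_mul_of_nonneg_right (le_abs_self c) (Real.sqrt_nonneg n)
          have b4 : Real.log 2 ≤ 1 := by
            have := Real.log_two_lt_d9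
            linarith
          have b5 : 0 ≤ |c| * (Real.sqrt n - 1) := mul_nonneg (abs_nonneg _) (by linarith)
          have b6 : Real.log n ≤ Real.log n * Real.sqrt n := by
            have := mul_nonneg hlogn (by linarith : 0 ≤ Real.sqrt n - 1)
            linarith
          linarith

end

end Pool.Agent.helper30.Mu
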