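import Mathlib

/-!
# Pigeonhole for coefficients in `{-1,0,1}`
-/

set_option autoImplicit false

namespace Pool.Agent.helper30.Mu

open Finset

theorem pig (J : Finset ℕ) (N : ℕ) (ψ : ℕ → ℕ → ℝ) (R : ℕ → ℝ) (ε : ℝ) (hε : 0 < ε)
    (hR : ∀ k < N, ∑ j ∈ J, |ψ k j| ≤ R k)
    (hcard : ((J.card : ℝ) + 1) * ∏ k ∈ range N, (2 * (R k / ε) + 3) < 2 ^ J.card) :
    ∃ b : ℕ → ℝ, (∀ j, b j = -1 ∨ b j = 0 ∨ b j = 1) ∧ (∀ j, j ∉ J → b j = 0) ∧
      (∃ j ∈ J, b j ≠ 0) ∧ ∑ j ∈ J, b j = 0 ∧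
      ∀ k < N, |∑ j ∈ J, b j * ψ k j| ≤ ε := by
  classical
  have hR0 : ∀ k < N, 0 ≤ R k := fun k hk =>
    (Finset.sum_nonneg fun j _ => abs_nonneg (ψ k j)).trans (hR k hk)
  let M : ℕ → ℤ := fun k => ⌈R k / ε⌉
  have hM0 : ∀ k < N, 0 ≤ M k := fun k hk => Int.ceil_nonneg (div_nonneg (hR0 k hk) hε.le)
  let T : Finset (ℕ × (Fin N → ℤ)) :=
    (range (J.card + 1)) ×ˢ Fintype.piFinset (fun k : Fin N => Finset.Icc (-(M k)) (M k))
  let g : Finset ℕ → ℕ × (Fin N → ℤ) := fun S =>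
    (S.card, fun k : Fin N => ⌊(∑ j ∈ S, ψ k j) / ε⌋)
  have hmaps : ∀ S ∈ J.powerset, g S ∈ T := by
    intro S hS
    rw [mem_powerset] at hS
    simp only [g, T, mem_product, mem_range, Fintype.mem_piFinset, mem_Icc]
    refine ⟨Nat.lt_succ_of_le (card_le_card hS), fun k => ?_⟩
    have h1 : |∑ j ∈ S, ψ k j| ≤ R k :=
      (abs_sum_le_sum_abs _ _).trans ((sum_le_sum_of_subset_of_nonneg hS
        fun _ _ _ => abs_nonneg _).trans (hR k k.2))
    rw [abs_le] at h1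
    constructor
    · rw [Int.le_floor]
      push_cast
      have h2 : R k / ε ≤ (M k : ℝ) := Int.le_ceil _
      have h3 : -(R k / ε) ≤ (∑ j ∈ S, ψ k j) / ε := by
        rw [← neg_div]
        exact div_le_div_of_nonneg_right h1.1 hε.le
      linarith
    · have h2 : (⌊(∑ j ∈ S, ψ k j) / ε⌋ : ℝ) ≤ (M k : ℝ) :=
        (Int.floor_le _).trans ((div_le_div_of_nonneg_right h1.2 hε.le).trans (Int.le_ceil _))
      exact_mod_cast h2
  have hlt : T.card < J.powerset.card := by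
    rw [card_powerset, card_product, card_range, Fintype.card_piFinset]
    have h1 : ((((J.card + 1) * ∏ k : Fin N, (Finset.Icc (-(M k)) (M k)).card : ℕ)) : ℝ) <
        ((2 ^ J.card : ℕ) : ℝ) := by
      push_cast
      refine lt_of_le_of_lt ?_ hcard
      apply mul_le_mul_of_nonneg_left _ (by positivity)
      rw [← Fin.prod_univ_eq_prod_range (fun k => 2 * (R k / ε) + 3) N]
      apply Finset.prod_le_prod
      · intro k _; positivity
      · intro k _
        rw [Int.card_Icc]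
        have h2 : (((M k + 1 - -(M k)).toNat : ℕ) : ℝ) = 2 * (M k : ℝ) + 1 := by
          have h3 : (((M k + 1 - -(M k)).toNat : ℕ) : ℤ) = 2 * M k + 1 := by
            rw [Int.toNat_of_nonneg (by have := hM0 k k.2; omega)]
            ring
          exact_mod_cast h3
        rw [h2]
        have h4 : (M k : ℝ) < R k / ε + 1 := Int.ceil_lt_add_one _
        linarith
    exact_mod_cast h1
  obtain ⟨S, hS, S', hS', hne, hg⟩ := exists_ne_map_eq_of_card_lt_of_maps_to hlt hmaps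
  rw [mem_powerset] at hS hS'
  have hg1 : S.card = S'.card := congrArg Prod.fst hg
  have hg2 : ∀ k : Fin N, ⌊(∑ j ∈ S, ψ k j) / ε⌋ = ⌊(∑ j ∈ S', ψ k j) / ε⌋ := fun k =>
    congrFun (congrArg Prod.snd hg) k
  let b : ℕ → ℝ := fun j => (if j ∈ S then 1 else 0) - (if j ∈ S' then 1 else 0)
  have hsum : ∀ f : ℕ → ℝ, ∑ j ∈ J, b j * f j = ∑ j ∈ S, f j - ∑ j ∈ S', f j := by
    intro f
    have h1 : ∀ A : Finset ℕ, A ⊆ J → ∑ j ∈ J, (if j ∈ A then (1 : ℝ) else 0) * f j =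
        ∑ j ∈ A, f j := by
      intro A hA
      rw [← sum_subset hA (f := fun j => (if j ∈ A then (1 : ℝ) else 0) * f j)]
      · exact sum_congr rfl fun j hj => by rw [if_pos hj, one_mul]
      · intro j _ hj
        rw [if_neg hj, zero_mul]
    rw [← h1 S hS, ← h1 S' hS', ← sum_sub_distrib]
    exact sum_congr rfl fun j _ => by simp only [b]; ring
  refine ⟨b, ?_, ?_, ?_, ?_, ?_⟩
  · intro j
    simp only [b]
    by_cases h1 : j ∈ S <;> by_cases h2 : j ∈ S' <;> simp [h1, h2]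
  · intro j hj
    simp only [b]
    rw [if_neg fun h => hj (hS h), if_neg fun h => hj (hS' h), sub_zero]
  · obtain ⟨j, hj⟩ : ∃ j, ¬ (j ∈ S ↔ j ∈ S') := by
      by_contra hcon
      push Not at hcon
      exact hne (Finset.ext hcon)
    refine ⟨j, ?_, ?_⟩
    · by_contra hjJ
      exact hj ⟨fun h => absurd (hS h) hjJ, fun h => absurd (hS' h) hjJ⟩
    · simp only [b]
      by_cases h1 : j ∈ S <;> by_cases h2 : j ∈ S' <;> simp [h1, h2] <;> tauto
  · have := hsum (fun _ => 1)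
    simp only [mul_one, sum_const, nsmul_eq_mul] at this
    rw [this, hg1, sub_self]
  · intro k hk
    rw [hsum]
    have h1 := hg2 ⟨k, hk⟩
    simp only at h1
    have h2 := Int.abs_sub_lt_one_of_floor_eq_floor h1
    rw [← sub_div, abs_div, abs_of_pos hε, div_lt_one hε] at h2
    exact h2.le

end Pool.Agent.helper30.Mu
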