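import Pool.Agent.helper30.Mu.TM
import Pool.Agent.helper30.Mu.Pig

/-!
# The basic construction
-/

set_option autoImplicit false

namespace Pool.Agent.helper30.Mu

open Finset

theorem fac_le_one (Y a : ℝ) (hY : 0 < Y) (ha : 0 < a) : |(Y - a) / (Y + a)| ≤ 1 := by
  rw [abs_div, abs_of_pos (by positivity : 0 < Y + a), div_le_one (by positivity), abs_le]
  constructor <;> linarith

theorem cyc (L : ℕ) (hL : 0 < L) (f : ℕ → ℝ) (ρ : ℝ) (hρ : 0 ≤ ρ) (hf : ∀ i, |f i| ≤ 1)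
    (h : ∏ i ∈ range L, |f i| ≤ ρ) (k : ℕ) : |∏ m ∈ range k, f (m % L)| ≤ ρ ^ (k / L) := by
  have h1 : ∀ q, |∏ m ∈ range (L * q), f (m % L)| ≤ ρ ^ q := by
    intro q
    induction q with
    | zero => simp
    | succ q ih =>
      rw [Nat.mul_succ, prod_range_add, abs_mul, pow_succ]
      have e : ∏ x ∈ range L, f ((L * q + x) % L) = ∏ x ∈ range L, f x := by
        refine prod_congr rfl fun x hx => ?_
        rw [Nat.mul_add_mod, Nat.mod_eq_of_lt (mem_range.1 hx)]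
      rw [e]
      have h' : |∏ x ∈ range L, f x| ≤ ρ := by rw [abs_prod]; exact h
      exact mul_le_mul ih h' (abs_nonneg _) (pow_nonneg hρ _)
  conv_lhs => rw [← Nat.div_add_mod k L]
  rw [prod_range_add, abs_mul]
  have h2 : |∏ x ∈ range (k % L), f ((L * (k / L) + x) % L)| ≤ 1 := by
    rw [abs_prod]
    exact prod_le_one (fun _ _ => abs_nonneg _) fun _ _ => hf _
  calc |∏ x ∈ range (L * (k / L)), f (x % L)| * |∏ x ∈ range (k % L), f ((L * (k / L) + x) % L)|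
      ≤ ρ ^ (k / L) * 1 := mul_le_mul (h1 _) h2 (abs_nonneg _) (pow_nonneg hρ _)
    _ = _ := mul_one _

/-- the nodes -/
noncomputable def nd (L n : ℕ) (α : ℕ → ℝ) (k : ℕ) : ℝ := n * α (k % L)

section
variable (κ : ℝ) (hκ : 0 < κ) (L : ℕ) (hL : 0 < L) (α : ℕ → ℝ) (hα : ∀ i, 0 < α i)
  (ρ : ℝ) (hρ : 0 < ρ)
  (h : ∀ y, κ ≤ y → y ≤ 1 → ∏ i ∈ range L, |y - α i| / (y + α i) ≤ ρ)
include hκ hL hα hρ h

theorem bl_le (n : ℕ) (hn : 0 < n) (Y : ℝ) (hY : κ * n ≤ Y) (hY1 : Y ≤ n) (k : ℕ) :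
    |bl (nd L n α) k Y| ≤ ρ ^ (k / L) := by
  have hn' : (0 : ℝ) < n := by exact_mod_cast hn
  have hy0 : 0 < Y / n := by
    have h0 : 0 < κ * n := by positivity
    have hY0 : 0 < Y := h0.trans_le hY
    positivity
  have e : bl (nd L n α) k Y = ∏ m ∈ range k, (fun i => (Y / n - α i) / (Y / n + α i)) (m % L) := by
    unfold bl nd
    refine prod_congr rfl fun m _ => ?_
    have := hα (m % L)
    have h1 : Y / n + α (m % L) ≠ 0 := by positivity
    have h2 : Y + n * α (m % L) ≠ 0 := by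
      have : Y = n * (Y / n) := by field_simp
      rw [this]; positivity
    show (Y - n * α (m % L)) / (Y + n * α (m % L)) = (Y / n - α (m % L)) / (Y / n + α (m % L))
    field_simp
  rw [e]
  apply cyc L hL (fun i => (Y / n - α i) / (Y / n + α i)) ρ hρ.le
  · intro i
    exact fac_le_one _ _ hy0 (hα i)
  · have h1 := h (Y / n) (by rwa [le_div_iff₀ hn']) (by rwa [div_le_one hn'])
    refine le_trans (le_of_eq ?_) h1
    refine prod_congr rfl fun i _ => ?_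
    rw [abs_div, abs_of_pos (by have := hα i; positivity : 0 < Y / n + α i)]

theorem ph_le (A : ℝ) (hA : 0 < A) (hαA : ∀ i, A ≤ α i) (n : ℕ) (hn : 0 < n) (Y : ℝ)
    (hY : κ * n ≤ Y) (hY1 : Y ≤ n) (k : ℕ) :
    |ph (nd L n α) k Y| ≤ Real.sqrt (2 / A) * ρ ^ (k / L) := by
  have hn' : (1 : ℝ) ≤ n := by exact_mod_cast hn
  have hY0 : 0 < Y := lt_of_lt_of_le (by positivity) hY
  set a := nd L n α k with ha
  have haA : A ≤ a := by
    rw [ha, nd]
    calc A = 1 * A := (one_mul _).symm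
      _ ≤ n * α (k % L) := mul_le_mul hn' (hαA _) hA.le (by positivity)
  have ha0 : 0 < a := hA.trans_le haA
  have h1 : Real.sqrt (2 * a) / (Y + a) ≤ Real.sqrt (2 / A) := by
    rw [div_le_iff₀ (by positivity)]
    apply Real.sqrt_le_iff.2
    constructor
    · positivity
    · rw [mul_pow, Real.sq_sqrt (by positivity)]
      have h2 : a ^ 2 ≤ (Y + a) ^ 2 := by nlinarith
      calc 2 * a ≤ 2 / A * a ^ 2 := by
            rw [div_mul_eq_mul_div, le_div_iff₀ hA]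
            nlinarith
        _ ≤ 2 / A * (Y + a) ^ 2 := by gcongr
  rw [ph, abs_mul]
  apply mul_le_mul _ (bl_le κ hκ L hL α hα ρ hρ h n hn Y hY hY1 k) (abs_nonneg _) (by positivity)
  rw [abs_of_nonneg (by positivity)]
  exact h1

theorem constr (A : ℝ) (hA : 0 < A) (hαA : ∀ i, A ≤ α i) (n K : ℕ) (hn : 0 < n)
    (hcard : ((n : ℝ) + 1) * ∏ k ∈ range (L * K),
      (2 * ((n : ℝ) ^ 2 * Real.sqrt (2 / A) * ρ ^ (k / L) / ρ ^ K) + 3) <
        2 ^ (n - ⌈κ * n⌉₊)) :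
    ∃ b : ℕ → ℝ, (∀ j, b j = -1 ∨ b j = 0 ∨ b j = 1) ∧
      (∀ j, j ∉ Finset.Ico ⌈κ * n⌉₊ n → b j = 0) ∧ (∃ j, b j ≠ 0) ∧
      ∀ x : ℝ, 0 ≤ x → x ≤ 1 → x * (∑ j ∈ range (n + 1), b j * x ^ j) ^ 2 ≤
        (L * K + (n : ℝ) ^ 4) * (ρ ^ K) ^ 2 := by
  set J := Finset.Ico ⌈κ * n⌉₊ n with hJ
  have hJc : J.card = n - ⌈κ * n⌉₊ := by rw [hJ, Nat.card_Ico]
  have hJn : (J.card : ℝ) ≤ n := by rw [hJc]; exact_mod_cast Nat.sub_le _ _
  have hn' : (1 : ℝ) ≤ n := by exact_mod_cast hn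
  have hYJ : ∀ j ∈ J, κ * n ≤ (j : ℝ) + 1 / 2 ∧ (j : ℝ) + 1 / 2 ≤ n := by
    intro j hj
    rw [hJ, mem_Ico, Nat.ceil_le] at hj
    constructor
    · linarith [hj.1]
    · have : (j : ℝ) + 1 ≤ n := by exact_mod_cast hj.2
      linarith
  have hjn : ∀ j ∈ J, (j : ℝ) ≤ n := fun j hj => by linarith [(hYJ j hj).2]
  have hρK : 0 < ρ ^ K := by positivity
  let ψ : ℕ → ℕ → ℝ := fun k j => j * ph (nd L n α) k ((j : ℝ) + 1 / 2)
  obtain ⟨b, hb, hbJ, ⟨j₀, -, hj₀⟩, hb0, hbψ⟩ := pig J (L * K) ψ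
    (fun k => (n : ℝ) ^ 2 * Real.sqrt (2 / A) * ρ ^ (k / L)) (ρ ^ K) hρK
    (by
      intro k _
      calc ∑ j ∈ J, |ψ k j| ≤ ∑ j ∈ J, n * (Real.sqrt (2 / A) * ρ ^ (k / L)) := by
            refine sum_le_sum fun j hj => ?_
            simp only [ψ]
            rw [abs_mul, Nat.abs_cast]
            exact mul_le_mul (hjn j hj) (ph_le κ hκ L hL α hα ρ hρ h A hA hαA n hn _
              (hYJ j hj).1 (hYJ j hj).2 k) (abs_nonneg _) (by positivity)
        _ = J.card * (n * (Real.sqrt (2 / A) * ρ ^ (k / L))) := by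
            rw [sum_const, nsmul_eq_mul]
        _ ≤ n * (n * (Real.sqrt (2 / A) * ρ ^ (k / L))) := by gcongr
        _ = _ := by ring)
    (by
      rw [hJc]
      refine lt_of_le_of_lt ?_ hcard
      apply mul_le_mul_of_nonneg_right _
      · exact prod_nonneg fun k _ => by positivity
      · have : ((n - ⌈κ * n⌉₊ : ℕ) : ℝ) ≤ n := by exact_mod_cast Nat.sub_le _ _
        linarith)
  refine ⟨b, hb, hbJ, ⟨j₀, hj₀⟩, fun x hx hx1 => ?_⟩
  have hsub : J ⊆ range (n + 1) := by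
    intro j hj
    rw [hJ, mem_Ico] at hj
    rw [mem_range]
    omega
  have hsum : ∑ j ∈ range (n + 1), b j * x ^ j = ∑ j ∈ J, b j * x ^ j := by
    symm
    apply sum_subset hsub
    intro j _ hj
    rw [hbJ j hj, zero_mul]
  rw [hsum]
  have h1 := sup_bound J b x hx hx1
  rw [hb0] at h1
  have h2 := integral_sq J (fun j => j * b j)
  have h3 := tm_quad (nd L n α) (fun k => by
    unfold nd
    have := hα (k % L)
    positivity) (L * K) J (fun j => (j : ℝ) + 1 / 2) (fun j => j * b j)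
    (fun j => by positivity)
  rw [h2, h3] at h1
  have h4 : ∑ k ∈ range (L * K), (∑ j ∈ J, (j * b j) * ph (nd L n α) k ((j : ℝ) + 1 / 2)) ^ 2 ≤
      L * K * (ρ ^ K) ^ 2 := by
    calc ∑ k ∈ range (L * K), (∑ j ∈ J, (j * b j) * ph (nd L n α) k ((j : ℝ) + 1 / 2)) ^ 2
        ≤ ∑ k ∈ range (L * K), (ρ ^ K) ^ 2 := by
          refine sum_le_sum fun k hk => ?_
          have h5 := hbψ k (mem_range.1 hk)
          have e : ∑ j ∈ J, (j * b j) * ph (nd L n α) k ((j : ℝ) + 1 / 2) =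
              ∑ j ∈ J, b j * ψ k j := sum_congr rfl fun j _ => by simp only [ψ]; ring
          rw [e, ← sq_abs]
          exact pow_le_pow_left₀ (abs_nonneg _) h5 2
      _ = L * K * (ρ ^ K) ^ 2 := by
          rw [sum_const, card_range, nsmul_eq_mul]; push_cast; ring
  have hb1 : ∀ j, |b j| ≤ 1 := by
    intro j
    rcases hb j with h | h | h <;> rw [h] <;> norm_num
  have h6 : ∑ i ∈ J, ∑ j ∈ J, (i * b i) * (j * b j) *
      (bl (nd L n α) (L * K) ((i : ℝ) + 1 / 2) * bl (nd L n α) (L * K) ((j : ℝ) + 1 / 2) /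
        (((i : ℝ) + 1 / 2) + ((j : ℝ) + 1 / 2))) ≤ (n : ℝ) ^ 4 * (ρ ^ K) ^ 2 := by
    have hB : ∀ j ∈ J, |bl (nd L n α) (L * K) ((j : ℝ) + 1 / 2)| ≤ ρ ^ K := by
      intro j hj
      have := bl_le κ hκ L hL α hα ρ hρ h n hn _ (hYJ j hj).1 (hYJ j hj).2 (L * K)
      rwa [Nat.mul_div_cancel_left K hL] at this
    have h7 : ∀ i ∈ J, ∀ j ∈ J, (i * b i) * (j * b j) *
        (bl (nd L n α) (L * K) ((i : ℝ) + 1 / 2) * bl (nd L n α) (L * K) ((j : ℝ) + 1 / 2) /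
          (((i : ℝ) + 1 / 2) + ((j : ℝ) + 1 / 2))) ≤ (n : ℝ) ^ 2 * (ρ ^ K) ^ 2 := by
      intro i hi j hj
      refine (le_abs_self _).trans ?_
      rw [abs_mul, abs_mul, abs_mul, abs_mul, abs_div, abs_mul, Nat.abs_cast, Nat.abs_cast]
      have h8 : (i : ℝ) * |b i| * (j * |b j|) ≤ (n : ℝ) ^ 2 := by
        have e1 : (i : ℝ) * |b i| ≤ n * 1 :=
          mul_le_mul (hjn i hi) (hb1 i) (abs_nonneg _) (by positivity)
        have e2 : (j : ℝ) * |b j| ≤ n * 1 :=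
          mul_le_mul (hjn j hj) (hb1 j) (abs_nonneg _) (by positivity)
        calc (i : ℝ) * |b i| * (j * |b j|) ≤ (n * 1) * (n * 1) :=
              mul_le_mul e1 e2 (by positivity) (by positivity)
          _ = _ := by ring
      have h9 : |bl (nd L n α) (L * K) ((i : ℝ) + 1 / 2)| *
          |bl (nd L n α) (L * K) ((j : ℝ) + 1 / 2)| /
          |((i : ℝ) + 1 / 2) + ((j : ℝ) + 1 / 2)| ≤ (ρ ^ K) ^ 2 := by
        have e3 : (1 : ℝ) ≤ |((i : ℝ) + 1 / 2) + ((j : ℝ) + 1 / 2)| := by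
          rw [abs_of_pos (by positivity)]
          have : (0 : ℝ) ≤ i := Nat.cast_nonneg _
          have : (0 : ℝ) ≤ j := Nat.cast_nonneg _
          linarith
        rw [div_le_iff₀ (by linarith)]
        calc |bl (nd L n α) (L * K) ((i : ℝ) + 1 / 2)| *
            |bl (nd L n α) (L * K) ((j : ℝ) + 1 / 2)| ≤ ρ ^ K * ρ ^ K :=
              mul_le_mul (hB i hi) (hB j hj) (abs_nonneg _) (by positivity)
          _ = (ρ ^ K) ^ 2 * 1 := by ring
          _ ≤ _ := by gcongr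
      exact mul_le_mul h8 h9 (by positivity) (by positivity)
    calc _ ≤ ∑ i ∈ J, ∑ j ∈ J, (n : ℝ) ^ 2 * (ρ ^ K) ^ 2 :=
          sum_le_sum fun i hi => sum_le_sum fun j hj => h7 i hi j hj
      _ = J.card * (J.card * ((n : ℝ) ^ 2 * (ρ ^ K) ^ 2)) := by
          rw [sum_const, sum_const, nsmul_eq_mul, nsmul_eq_mul]
      _ ≤ n * (n * ((n : ℝ) ^ 2 * (ρ ^ K) ^ 2)) := by gcongr
      _ = _ := by ring
  have h10 : (0 : ℝ) ^ 2 = 0 := by norm_num
  rw [h10, zero_add] at h1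
  refine h1.trans ?_
  have h11 : (L * K + (n : ℝ) ^ 4) * (ρ ^ K) ^ 2 = L * K * (ρ ^ K) ^ 2 + (n : ℝ) ^ 4 * (ρ ^ K) ^ 2 := by
    ring
  rw [h11]
  exact add_le_add h4 h6

end

end Pool.Agent.helper30.Mu
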