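import Mathlib

/-!
# The lower bound: multipliers
-/

set_option autoImplicit false

namespace Pool.Agent.helper30.Mu

open Finset

/-- `a_j ↦ u_j a_j` has norm at most `M` for the sup norm on `[0,1]` (degree at most `n`) -/
def Mult (n : ℕ) (u : ℕ → ℝ) (M : ℝ) : Prop :=
  ∀ (a : ℕ → ℝ) (C : ℝ), (∀ x : ℝ, 0 ≤ x → x ≤ 1 → |∑ j ∈ range (n + 1), a j * x ^ j| ≤ C) →
    ∀ x : ℝ, 0 ≤ x → x ≤ 1 → |∑ j ∈ range (n + 1), (a j * u j) * x ^ j| ≤ M * C

theorem Mult.nonneg_aux {n : ℕ} {a : ℕ → ℝ} {C : ℝ}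
    (h : ∀ x : ℝ, 0 ≤ x → x ≤ 1 → |∑ j ∈ range (n + 1), a j * x ^ j| ≤ C) : 0 ≤ C :=
  (abs_nonneg _).trans (h 0 le_rfl zero_le_one)

theorem Mult.const (n : ℕ) (t : ℝ) : Mult n (fun _ => t) |t| := by
  intro a C h x hx hx1
  have e : ∑ j ∈ range (n + 1), (a j * t) * x ^ j = t * ∑ j ∈ range (n + 1), a j * x ^ j := by
    rw [mul_sum]
    exact sum_congr rfl fun j _ => by ring
  rw [e, abs_mul]
  exact mul_le_mul_of_nonneg_left (h x hx hx1) (abs_nonneg _)

theorem Mult.add {n : ℕ} {u v : ℕ → ℝ} {M M' : ℝ} (hu : Mult n u M) (hv : Mult n v M') :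
    Mult n (fun j => u j + v j) (M + M') := by
  intro a C h x hx hx1
  have e : ∑ j ∈ range (n + 1), (a j * (u j + v j)) * x ^ j =
      ∑ j ∈ range (n + 1), (a j * u j) * x ^ j + ∑ j ∈ range (n + 1), (a j * v j) * x ^ j := by
    rw [← sum_add_distrib]
    exact sum_congr rfl fun j _ => by ring
  rw [e, add_mul]
  exact (abs_add_le _ _).trans (add_le_add (hu a C h x hx hx1) (hv a C h x hx hx1))

theorem Mult.mul {n : ℕ} {u v : ℕ → ℝ} {M M' : ℝ} (hu : Mult n u M) (hv : Mult n v M') :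
    Mult n (fun j => u j * v j) (M * M') := by
  intro a C h x hx hx1
  have h1 := hv a C h
  have h2 := hu _ _ h1 x hx hx1
  have e : ∀ j, a j * v j * u j = a j * (u j * v j) := fun j => by ring
  simp only [e] at h2
  rw [mul_assoc]
  exact h2

theorem Mult.mono {n : ℕ} {u : ℕ → ℝ} {M M' : ℝ} (hu : Mult n u M) (h : M ≤ M') :
    Mult n u M' := by
  intro a C ha x hx hx1
  exact (hu a C ha x hx hx1).trans (mul_le_mul_of_nonneg_right h (Mult.nonneg_aux ha))

theorem Mult.geom (n : ℕ) (t : ℝ) (ht : 0 ≤ t) (ht1 : t ≤ 1) : Mult n (fun j => t ^ j) 1 := by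
  intro a C h x hx hx1
  have h1 := h (t * x) (mul_nonneg ht hx) (mul_le_one₀ ht1 hx hx1)
  rw [one_mul]
  refine le_trans (le_of_eq ?_) h1
  congr 1
  exact sum_congr rfl fun j _ => by rw [mul_pow]; ring

/-! ### Chebyshev polynomials and Fejer sums -/

/-- Chebyshev polynomials (as functions of a real number) -/
noncomputable def ch (z : ℝ) : ℕ → ℝ
  | 0 => 1
  | 1 => z
  | (i + 2) => 2 * z * ch z (i + 1) - ch z i

/-- Dirichlet sums -/
noncomputable def dr (z : ℝ) : ℕ → ℝ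
  | 0 => 1
  | (i + 1) => dr z i + 2 * ch z (i + 1)

/-- Fejer sums -/
noncomputable def fj (z : ℝ) : ℕ → ℝ
  | 0 => 0
  | (i + 1) => fj z i + dr z i

theorem ch_cos (φ : ℝ) (i : ℕ) : ch (Real.cos φ) i = Real.cos (i * φ) ∧
    ch (Real.cos φ) (i + 1) = Real.cos ((i + 1 : ℕ) * φ) := by
  induction i with
  | zero => simp [ch]
  | succ i ih =>
    refine ⟨ih.2, ?_⟩
    rw [ch, ih.1, ih.2]
    have e1 : ((i + 1 + 1 : ℕ) : ℝ) * φ = ((i + 1 : ℕ) : ℝ) * φ + φ := by push_cast; ring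
    have e2 : (i : ℝ) * φ = ((i + 1 : ℕ) : ℝ) * φ - φ := by push_cast; ring
    rw [e1, e2, Real.cos_add, Real.cos_sub]
    ring

theorem ch_abs (z : ℝ) (hz : |z| ≤ 1) (i : ℕ) : |ch z i| ≤ 1 := by
  have e : z = Real.cos (Real.arccos z) := (Real.cos_arccos (abs_le.1 hz).1 (abs_le.1 hz).2).symm
  rw [e, (ch_cos _ i).1]
  exact Real.abs_cos_le_one _

theorem dr_eq (z : ℝ) (r : ℕ) : (1 - z) * dr z r = ch z r - ch z (r + 1) := by
  induction r with
  | zero => simp [dr, ch]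
  | succ r ih =>
    rw [dr, mul_add, ih, ch]
    ring

theorem fj_eq (z : ℝ) (r : ℕ) : (1 - z) * fj z r = 1 - ch z r := by
  induction r with
  | zero => simp [fj, ch]
  | succ r ih =>
    rw [fj, mul_add, ih, dr_eq]
    ring

theorem ch_one (i : ℕ) : ch 1 i = 1 := by
  have := (ch_cos 0 i).1
  simpa using this

theorem dr_one (r : ℕ) : dr 1 r = 2 * r + 1 := by
  induction r with
  | zero => simp [dr]
  | succ r ih => rw [dr, ih, ch_one]; push_cast; ring

theorem fj_one (r : ℕ) : fj 1 r = (r : ℝ) ^ 2 := by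
  induction r with
  | zero => simp [fj]
  | succ r ih => rw [fj, ih, dr_one]; push_cast; ring

theorem fj_bound (z : ℝ) (hz : |z| ≤ 1) (hz1 : z < 1) (r : ℕ) : |fj z r| ≤ 2 / (1 - z) := by
  have h1 := fj_eq z r
  have h2 := ch_abs z hz r
  have h3 : 0 < 1 - z := by linarith
  rw [le_div_iff₀ h3]
  have h4 : |fj z r| * (1 - z) = |1 - ch z r| := by
    rw [← h1, abs_mul, abs_of_pos h3]; ring
  rw [h4]
  have := abs_le.1 h2
  rw [abs_le]
  constructor <;> linarith

section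
variable {n : ℕ} {u : ℕ → ℝ} {Z l : ℝ}

theorem mult_ch (hu : Mult n u Z) (hZ : 0 ≤ Z) (hl1 : 1 ≤ l) (hl : 2 * Z * l + 1 ≤ l ^ 2)
    (hZl : Z ≤ l) (i : ℕ) : Mult n (fun j => ch (u j) i) (l ^ i) ∧
      Mult n (fun j => ch (u j) (i + 1)) (l ^ (i + 1)) := by
  induction i with
  | zero =>
    constructor
    · simp only [ch, pow_zero]
      simpa using Mult.const n 1
    · simp only [ch, zero_add, pow_one]
      exact hu.mono hZl
  | succ i ih =>
    refine ⟨ih.2, ?_⟩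
    have h1 := (((Mult.const n 2).mul hu).mul ih.2).add (((Mult.const n (-1)).mul ih.1))
    have e : ∀ j, ch (u j) (i + 1 + 1) = 2 * u j * ch (u j) (i + 1) + -1 * ch (u j) i := by
      intro j
      rw [ch]; ring
    simp only [e]
    refine h1.mono ?_
    have hli : 0 ≤ l ^ i := by positivity
    have e2 : l ^ (i + 1 + 1) = l ^ i * l ^ 2 := by ring
    rw [e2]
    norm_num
    calc 2 * Z * l ^ (i + 1) + l ^ i = l ^ i * (2 * Z * l + 1) := by ring
      _ ≤ l ^ i * l ^ 2 := by gcongr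

theorem mult_dr (hu : Mult n u Z) (hZ : 0 ≤ Z) (hl1 : 1 ≤ l) (hl : 2 * Z * l + 1 ≤ l ^ 2)
    (hZl : Z ≤ l) (i : ℕ) : Mult n (fun j => dr (u j) i) ((2 * i + 1) * l ^ i) := by
  induction i with
  | zero =>
    simp only [dr]
    have := Mult.const n 1
    simpa using this
  | succ i ih =>
    have h1 := ih.add ((Mult.const n 2).mul (mult_ch hu hZ hl1 hl hZl (i + 1)).1)
    simp only [dr]
    refine h1.mono ?_
    have hli : 0 ≤ l ^ i := by positivity
    rw [abs_of_pos (by norm_num : (0 : ℝ) < 2)]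
    push_cast
    have e2 : l ^ (i + 1) = l ^ i * l := by ring
    rw [e2]
    have h3 : (2 * (i : ℝ) + 1) * l ^ i ≤ (2 * i + 1) * (l ^ i * l) := by
      apply mul_le_mul_of_nonneg_left _ (by positivity)
      nlinarith
    nlinarith

theorem mult_fj (hu : Mult n u Z) (hZ : 0 ≤ Z) (hl1 : 1 ≤ l) (hl : 2 * Z * l + 1 ≤ l ^ 2)
    (hZl : Z ≤ l) (i : ℕ) : Mult n (fun j => fj (u j) (i + 1)) (((i : ℝ) + 1) ^ 2 * l ^ i) := by
  induction i with
  | zero =>
    simp only [fj, dr]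
    have := Mult.const n (0 + 1)
    simpa using this
  | succ i ih =>
    have h1 := ih.add (mult_dr hu hZ hl1 hl hZl (i + 1))
    have e : ∀ j, fj (u j) (i + 1 + 1) = fj (u j) (i + 1) + dr (u j) (i + 1) := fun j => rfl
    simp only [e]
    refine h1.mono ?_
    have hli : 0 ≤ l ^ i := by positivity
    push_cast
    have e2 : l ^ (i + 1) = l ^ i * l := by ring
    rw [e2]
    have h3 : ((i : ℝ) + 1) ^ 2 * l ^ i ≤ (i + 1) ^ 2 * (l ^ i * l) := by
      apply mul_le_mul_of_nonneg_left _ (by positivity)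
      nlinarith
    nlinarith

end

end Pool.Agent.helper30.Mu
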