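import Mathlib

/-!
# Takenaka-Malmquist identity for the Cauchy kernel and the `L²` norm of a polynomial on `[0,1]`
-/

set_option autoImplicit false

namespace Pool.Agent.helper30.Mu

open Finset

/-- Blaschke product of the right half plane -/
noncomputable def bl (a : ℕ → ℝ) (k : ℕ) (Y : ℝ) : ℝ := ∏ m ∈ range k, (Y - a m) / (Y + a m)

/-- Takenaka-Malmquist function -/
noncomputable def ph (a : ℕ → ℝ) (k : ℕ) (Y : ℝ) : ℝ := Real.sqrt (2 * a k) / (Y + a k) * bl a k Y

theorem bl_succ (a : ℕ → ℝ) (k : ℕ) (Y : ℝ) :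
    bl a (k + 1) Y = bl a k Y * ((Y - a k) / (Y + a k)) := by
  unfold bl
  rw [prod_range_succ]

theorem tm_step (a : ℕ → ℝ) (ha : ∀ k, 0 < a k) (k : ℕ) (Y Z : ℝ) (hY : 0 < Y) (hZ : 0 < Z) :
    bl a k Y * bl a k Z / (Y + Z) =
      ph a k Y * ph a k Z + bl a (k + 1) Y * bl a (k + 1) Z / (Y + Z) := by
  have h1 : Y + a k ≠ 0 := by have := ha k; positivity
  have h2 : Z + a k ≠ 0 := by have := ha k; positivity
  have h3 : Y + Z ≠ 0 := by positivity
  have hs : Real.sqrt (2 * a k) * Real.sqrt (2 * a k) = 2 * a k :=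
    Real.mul_self_sqrt (by have := ha k; positivity)
  rw [bl_succ, bl_succ, ph, ph]
  have e : Real.sqrt (2 * a k) / (Y + a k) * bl a k Y * (Real.sqrt (2 * a k) / (Z + a k) * bl a k Z)
      = (Real.sqrt (2 * a k) * Real.sqrt (2 * a k)) * (bl a k Y * bl a k Z) /
        ((Y + a k) * (Z + a k)) := by
    field_simp
  rw [e, hs]
  field_simp
  ring

theorem tm (a : ℕ → ℝ) (ha : ∀ k, 0 < a k) (N : ℕ) (Y Z : ℝ) (hY : 0 < Y) (hZ : 0 < Z) :
    1 / (Y + Z) = ∑ k ∈ range N, ph a k Y * ph a k Z + bl a N Y * bl a N Z / (Y + Z) := by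
  induction N with
  | zero => simp [bl]
  | succ N ih => rw [sum_range_succ, ih, tm_step a ha N Y Z hY hZ]; ring

/-- the quadratic form of the Cauchy matrix -/
theorem tm_quad (a : ℕ → ℝ) (ha : ∀ k, 0 < a k) (N : ℕ) (J : Finset ℕ) (Y b : ℕ → ℝ)
    (hY : ∀ j, 0 < Y j) :
    ∑ i ∈ J, ∑ j ∈ J, b i * b j * (1 / (Y i + Y j)) =
      ∑ k ∈ range N, (∑ j ∈ J, b j * ph a k (Y j)) ^ 2 +
      ∑ i ∈ J, ∑ j ∈ J, b i * b j * (bl a N (Y i) * bl a N (Y j) / (Y i + Y j)) := by
  have h1 : ∀ i j, b i * b j * (1 / (Y i + Y j)) =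
      ∑ k ∈ range N, b i * b j * (ph a k (Y i) * ph a k (Y j)) +
        b i * b j * (bl a N (Y i) * bl a N (Y j) / (Y i + Y j)) := by
    intro i j
    rw [tm a ha N (Y i) (Y j) (hY i) (hY j), mul_add, mul_sum]
  simp only [h1, sum_add_distrib]
  congr 1
  have h2 : ∀ k, (∑ j ∈ J, b j * ph a k (Y j)) ^ 2 =
      ∑ i ∈ J, ∑ j ∈ J, b i * b j * (ph a k (Y i) * ph a k (Y j)) := by
    intro k
    rw [sq, sum_mul_sum]
    refine sum_congr rfl fun i _ => sum_congr rfl fun j _ => by ring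
  simp only [h2]
  rw [sum_comm (s := range N)]
  refine sum_congr rfl fun i _ => ?_
  rw [sum_comm]

/-- `∫₀¹ (∑ b_j x^j)² dx` -/
theorem integral_sq (J : Finset ℕ) (b : ℕ → ℝ) :
    ∫ x in (0 : ℝ)..1, (∑ j ∈ J, b j * x ^ j) ^ 2 =
      ∑ i ∈ J, ∑ j ∈ J, b i * b j * (1 / (((i : ℝ) + 1 / 2) + ((j : ℝ) + 1 / 2))) := by
  have h1 : ∀ x : ℝ, (∑ j ∈ J, b j * x ^ j) ^ 2 = ∑ i ∈ J, ∑ j ∈ J, b i * b j * x ^ (i + j) := by
    intro x
    rw [sq, sum_mul_sum]
    refine sum_congr rfl fun i _ => sum_congr rfl fun j _ => by rw [pow_add]; ring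
  simp only [h1]
  rw [intervalIntegral.integral_finsetSum]
  · refine sum_congr rfl fun i _ => ?_
    rw [intervalIntegral.integral_finsetSum]
    · refine sum_congr rfl fun j _ => ?_
      rw [intervalIntegral.integral_const_mul, integral_pow]
      congr 1
      push_cast
      simp
      ring
    · intro j _
      exact (by fun_prop : Continuous fun x : ℝ => b i * b j * x ^ (i + j)).intervalIntegrable _ _
  · intro i _
    exact (by fun_prop : Continuous fun x : ℝ =>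
      ∑ j ∈ J, b i * b j * x ^ (i + j)).intervalIntegrable _ _

/-- `x u(x)² ≤ u(1)² + ∫₀¹ (x u')²` -/
theorem sup_bound (J : Finset ℕ) (b : ℕ → ℝ) (x : ℝ) (hx : 0 ≤ x) (hx1 : x ≤ 1) :
    x * (∑ j ∈ J, b j * x ^ j) ^ 2 ≤ (∑ j ∈ J, b j) ^ 2 +
      ∫ t in (0 : ℝ)..1, (∑ j ∈ J, (j * b j) * t ^ j) ^ 2 := by
  set u : ℝ → ℝ := fun t => ∑ j ∈ J, b j * t ^ j with hu
  set w : ℝ → ℝ := fun t => ∑ j ∈ J, (j * b j) * t ^ j with hw
  have hcu : Continuous u := by rw [hu]; fun_prop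
  have hcw : Continuous w := by rw [hw]; fun_prop
  -- derivative of `t u(t)²`
  have hder : ∀ t : ℝ, HasDerivAt (fun t => t * u t ^ 2) (u t ^ 2 + 2 * u t * w t) t := by
    intro t
    have h1 : HasDerivAt u (∑ j ∈ J, b j * (j * t ^ (j - 1))) t := by
      rw [hu]
      apply HasDerivAt.fun_sum
      intro j _
      exact (hasDerivAt_pow j t).const_mul (b j)
    have h2 : t * (∑ j ∈ J, b j * (j * t ^ (j - 1))) = w t := by
      rw [hw, mul_sum]
      refine sum_congr rfl fun j _ => ?_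
      rcases Nat.eq_zero_or_pos j with h | h
      · subst h; simp
      · have : t ^ j = t * t ^ (j - 1) := by
          rw [← pow_succ']; congr 1; omega
        rw [this]; ring
    have h3 := (hasDerivAt_id' t).fun_mul (h1.fun_pow 2)
    refine h3.congr_deriv ?_
    rw [← h2]
    simp only [Nat.cast_ofNat, Nat.add_one_sub_one, pow_one, one_mul]
    ring
  have hint : ∫ t in x..1, (u t ^ 2 + 2 * u t * w t) = 1 * u 1 ^ 2 - x * u x ^ 2 := by
    apply intervalIntegral.integral_eq_sub_of_hasDerivAt (f := fun t => t * u t ^ 2)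
    · intro t _
      exact hder t
    · exact (by fun_prop : Continuous fun t => u t ^ 2 + 2 * u t * w t).intervalIntegrable _ _
  have h4 : -(∫ t in x..1, (u t ^ 2 + 2 * u t * w t)) ≤ ∫ t in x..1, w t ^ 2 := by
    rw [← intervalIntegral.integral_neg]
    apply intervalIntegral.integral_mono_on hx1
    · exact (by fun_prop : Continuous fun t => -(u t ^ 2 + 2 * u t * w t)).intervalIntegrable _ _
    · exact (by fun_prop : Continuous fun t => w t ^ 2).intervalIntegrable _ _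
    · intro t _
      nlinarith [sq_nonneg (u t + w t)]
  have h5 : ∫ t in x..1, w t ^ 2 ≤ ∫ t in (0 : ℝ)..1, w t ^ 2 := by
    rw [← intervalIntegral.integral_add_adjacent_intervals (a := 0) (b := x) (c := 1)]
    · have : 0 ≤ ∫ t in (0 : ℝ)..x, w t ^ 2 :=
        intervalIntegral.integral_nonneg hx fun t _ => sq_nonneg _
      linarith
    · exact (by fun_prop : Continuous fun t => w t ^ 2).intervalIntegrable _ _
    · exact (by fun_prop : Continuous fun t => w t ^ 2).intervalIntegrable _ _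
  have h6 : u 1 = ∑ j ∈ J, b j := by rw [hu]; simp
  rw [← h6]
  linarith

end Pool.Agent.helper30.Mu
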